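import Pool.Agent.H812R2.AP.Ideal

set_option autoImplicit false
set_option linter.unusedSectionVars false

/-! # The ideal of approximable operators -/

open Filter Topology

noncomputable section

namespace Pool.Agent.H812R2.AP

variable {𝕜 : Type} [RCLike 𝕜]

section
variable {W X Y Z : Type} [NormedAddCommGroup W] [NormedSpace 𝕜 W]
  [NormedAddCommGroup X] [NormedSpace 𝕜 X]
  [NormedAddCommGroup Y] [NormedSpace 𝕜 Y]
  [NormedAddCommGroup Z] [NormedSpace 𝕜 Z]

lemma FiniteRank.add {S T : X →L[𝕜] Y} (hS : FiniteRank S) (hT : FiniteRank T) : FiniteRank (S + T) := by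
  unfold FiniteRank at *
  have h : LinearMap.range ((S + T : X →L[𝕜] Y) : X →ₗ[𝕜] Y) ≤
      LinearMap.range (S : X →ₗ[𝕜] Y) ⊔ LinearMap.range (T : X →ₗ[𝕜] Y) := by
    rintro _ ⟨x, rfl⟩
    exact Submodule.add_mem_sup ⟨x, rfl⟩ ⟨x, rfl⟩
  exact Submodule.finiteDimensional_of_le h

lemma FiniteRank.smul (c : 𝕜) {T : X →L[𝕜] Y} (hT : FiniteRank T) : FiniteRank (c • T) := by
  unfold FiniteRank at *
  have h : LinearMap.range ((c • T : X →L[𝕜] Y) : X →ₗ[𝕜] Y) ≤ LinearMap.range (T : X →ₗ[𝕜] Y) := by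
    rintro _ ⟨x, rfl⟩
    exact Submodule.smul_mem _ _ ⟨x, rfl⟩
  exact Submodule.finiteDimensional_of_le h

lemma FiniteRank.comp (R : Y →L[𝕜] Z) {T : X →L[𝕜] Y} (S : W →L[𝕜] X) (hT : FiniteRank T) :
    FiniteRank (R ∘L T ∘L S) := by
  unfold FiniteRank at *
  have h : LinearMap.range ((R ∘L T ∘L S : W →L[𝕜] Z) : W →ₗ[𝕜] Z) ≤
      (LinearMap.range (T : X →ₗ[𝕜] Y)).map (R : Y →ₗ[𝕜] Z) := by
    rintro _ ⟨x, rfl⟩
    exact ⟨T (S x), ⟨S x, rfl⟩, rfl⟩
  exact Submodule.finiteDimensional_of_le h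

end

/-- approximable operators with the operator norm -/
def approxData (𝕜 : Type) [RCLike 𝕜] : IdealData 𝕜 where
  Mem {X Y} _ _ _ _ _ _ T := T ∈ closure {S : X →L[𝕜] Y | FiniteRank S}
  nm T := ‖T‖

lemma approx_isLinear : (approxData 𝕜).IsLinear := by
  intro X Y _ _ _ _ _ _
  refine ⟨fun T h => subset_closure h, fun S T hS hT => ?_, fun c T hT => ?_⟩
  · exact map_mem_closure₂ continuous_add hS hT fun _ hA _ hB => FiniteRank.add hA hB
  · exact map_mem_closure (continuous_const_smul c) hT fun _ hA => FiniteRank.smul c hA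

lemma approx_isNorm : (approxData 𝕜).IsNorm := by
  intro X Y _ _ _ _ _ _
  exact ⟨fun _ _ => norm_nonneg _, fun _ _ h => norm_eq_zero.1 h, fun _ _ _ _ => norm_add_le _ _,
    fun c _ _ => norm_smul c _⟩

lemma approx_isComplete : (approxData 𝕜).IsComplete := by
  intro X Y _ _ _ _ _ _ T hT hc
  have h1 : CauchySeq T := by
    rw [Metric.cauchySeq_iff]
    intro ε hε
    obtain ⟨N, hN⟩ := hc (ε / 2) (by positivity)
    refine ⟨N, fun m hm n hn => ?_⟩
    rw [dist_eq_norm]
    have : ‖T m - T n‖ ≤ ε / 2 := hN m hm n hn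
    linarith
  obtain ⟨S, hS⟩ := cauchySeq_tendsto_of_complete h1
  refine ⟨S, isClosed_closure.mem_of_tendsto hS (Eventually.of_forall hT), ?_⟩
  exact tendsto_iff_norm_sub_tendsto_zero.1 hS

lemma approx_rankOne : (approxData 𝕜).RankOne := by
  intro X Y _ _ _ _ _ _ f y
  exact ContinuousLinearMap.norm_smulRight_apply f y

lemma approx_isIdeal : (approxData 𝕜).IsIdeal := by
  intro W X Y Z _ _ _ _ _ _ _ _ _ _ _ _ R T S hT
  constructor
  · have hc : Continuous fun A : X →L[𝕜] Y => R ∘L A ∘L S :=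
      (continuous_const.clm_comp (continuous_id.clm_comp continuous_const))
    exact map_mem_closure (f := fun A : X →L[𝕜] Y => R ∘L A ∘L S) hc hT
      (fun A hA => FiniteRank.comp R S hA)
  · refine (ContinuousLinearMap.opNorm_comp_le _ _).trans ?_
    rw [mul_assoc]
    exact mul_le_mul_of_nonneg_left (ContinuousLinearMap.opNorm_comp_le _ _) (norm_nonneg _)

/-- The ideal of approximable operators: the operator norm closure of the finite rank operators,
with the operator norm. -/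
def approximable (𝕜 : Type) [RCLike 𝕜] : BanachIdeal 𝕜 :=
  { approxData 𝕜 with
    isLinear := approx_isLinear
    isNorm := approx_isNorm
    isComplete := approx_isComplete
    rankOne := approx_rankOne
    isIdeal := approx_isIdeal }

lemma approximable_mem {X Y : Type} [NormedAddCommGroup X] [NormedSpace 𝕜 X] [CompleteSpace X]
    [NormedAddCommGroup Y] [NormedSpace 𝕜 Y] [CompleteSpace Y] {T : X →L[𝕜] Y} :
    (approximable 𝕜).Mem T ↔ T ∈ closure {S : X →L[𝕜] Y | FiniteRank S} := Iff.rfl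

lemma approximable_nm {X Y : Type} [NormedAddCommGroup X] [NormedSpace 𝕜 X] [CompleteSpace X]
    [NormedAddCommGroup Y] [NormedSpace 𝕜 Y] [CompleteSpace Y] (T : X →L[𝕜] Y) :
    (approximable 𝕜).nm T = ‖T‖ := rfl

lemma approximable_dense : FiniteRankDense (approximable 𝕜) := by
  intro X Y _ _ _ _ _ _ T hT ε hε
  rw [approximable_mem, Metric.mem_closure_iff] at hT
  obtain ⟨S, hS, hd⟩ := hT ε hε
  refine ⟨S, hS, ?_⟩
  rw [approximable_nm, ← dist_eq_norm, dist_comm]
  exact hd.le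

end Pool.Agent.H812R2.AP
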