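import Pool.Agent.BAPp.SysDefs
import Pool.Agent.BAPp.System
import Pool.Agent.BAPp.Had
import Pool.Agent.BAPp.Rows
import Pool.Agent.BAPp.ExSigns

set_option autoImplicit false
set_option linter.unusedSectionVars false

/-! # A Banach space without the approximation property (Davie) -/

open Filter Topology Finset
open scoped BoundedContinuousFunction

noncomputable section

namespace Pool.Agent.H812R2.AP

open Pool.Agent.BAPp

/-- the combinatorial data -/
structure Sys where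
  sg : ℕ → ℕ → ℕ → ℝ
  tt : ℕ → ℕ → ℕ → ℝ
  sg_le : ∀ k j g, |sg k j g| ≤ 1
  tt_le : ∀ k j g, |tt k j g| ≤ 1
  sgsg : ∀ k, ∀ i < 2 ^ k, ∀ j < 2 ^ k,
        ∑ g ∈ range (2 ^ (k + 2)), sg k i g * sg k j g = if i = j then (2:ℝ) ^ (k + 2) else 0
  tttt : ∀ k, ∀ i < 2 ^ (k + 1), ∀ j < 2 ^ (k + 1),
        ∑ g ∈ range (2 ^ (k + 2)), tt k i g * tt k j g = if i = j then (2:ℝ) ^ (k + 2) else 0
  sgtt : ∀ k, ∀ i < 2 ^ k, ∀ j < 2 ^ (k + 1),
        ∑ g ∈ range (2 ^ (k + 2)), sg k i g * tt k j g = 0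
  flat : ∀ k, ∀ g < 2 ^ (k + 2), ∀ h < 2 ^ (k + 2),
        |∑ j ∈ range (2 ^ (k + 1)), tt k j g * tt k j h
          - 2 * ∑ j ∈ range (2 ^ k), sg k j g * sg k j h| ≤ 20 * (k + 1) * Real.sqrt (2 ^ k)
  cross : ∀ k, ∀ g < 2 ^ (k + 2), ∀ h < 2 ^ (k + 3),
        |∑ j ∈ range (2 ^ (k + 1)), tt k j g * sg (k + 1) j h|
          ≤ 20 * (k + 1) * Real.sqrt (2 ^ k)

theorem exists_sys : Nonempty Sys := by
  have signs : ∀ (m : ℕ), 0 < m → ∀ (Q : Type) (_ : Fintype Q) (c : Q → Fin m → ℝ) (M : ℝ),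
      (∀ h i, |c h i| ≤ M) → ∃ e : Fin m → Bool, ∀ h, |∑ i, sgn (e i) * c h i|
        ≤ Real.sqrt m * (Real.log (2 * Fintype.card Q) + M ^ 2 / 2) := by
    intro m hm Q _ c M hM
    have : Nonempty (Fin m) := ⟨⟨0, hm⟩⟩
    have := ExSigns.exists_signs c M hM
    simpa using this
  have h := System.exists_system Had.exists_hadamard (by
    intro k H hH1 hcol
    refine Rows.exists_rows k H hH1 hcol ?_
    intro m hm c M hM
    obtain ⟨e, he⟩ := signs m hm _ inferInstance c M hM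
    refine ⟨e, fun h => (he h).trans (le_of_eq ?_)⟩
    simp) signs
  obtain ⟨sg, tt, h1, h2, h3, h4, h5, h6, h7⟩ := h
  exact ⟨⟨sg, tt, h1, h2, h3, h4, h5, h6, h7⟩⟩

variable (𝕜 : Type) [RCLike 𝕜] (s : Sys)

/-- the ambient space of bounded functions -/
abbrev Z := (ℕ × ℕ) →ᵇ 𝕜

namespace Sys

lemma ee_le (l i : ℕ) (x : ℕ × ℕ) : |ee s.sg s.tt l i x| ≤ 1 := by
  unfold ee
  split_ifs
  · exact s.sg_le _ _ _
  · exact s.tt_le _ _ _
  · simp
  · simp

/-- the generating vectors -/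
def E (l i : ℕ) : Z 𝕜 :=
  BoundedContinuousFunction.ofNormedAddCommGroupDiscrete
    (fun x => ((ee s.sg s.tt l i x : ℝ) : 𝕜)) 1 (fun x => by
      rw [RCLike.norm_ofReal]
      exact s.ee_le l i x)

lemma E_apply (l i : ℕ) (x : ℕ × ℕ) : s.E 𝕜 l i x = ((ee s.sg s.tt l i x : ℝ) : 𝕜) := rfl

lemma norm_E_le (l i : ℕ) : ‖s.E 𝕜 l i‖ ≤ 1 :=
  (BoundedContinuousFunction.norm_le zero_le_one).2 fun x => by
    rw [E_apply, RCLike.norm_ofReal]
    exact s.ee_le l i x

/-- the set of generators -/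
def gens : Set (Z 𝕜) := {z | ∃ l i, i < 2 ^ l ∧ z = s.E 𝕜 l i}

/-- Davie's space -/
def X : Submodule 𝕜 (Z 𝕜) := (Submodule.span 𝕜 (s.gens 𝕜)).topologicalClosure

lemma isClosed_X : IsClosed (s.X 𝕜 : Set (Z 𝕜)) := Submodule.isClosed_topologicalClosure _

instance : CompleteSpace (s.X 𝕜) := (s.isClosed_X 𝕜).completeSpace_coe

lemma E_mem {l i : ℕ} (h : i < 2 ^ l) : s.E 𝕜 l i ∈ s.X 𝕜 :=
  Submodule.le_topologicalClosure _ (Submodule.subset_span ⟨l, i, h, rfl⟩)

variable {𝕜}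

lemma X_induction {p : Z 𝕜 → Prop} (hgen : ∀ l i, i < 2 ^ l → p (s.E 𝕜 l i)) (h0 : p 0)
    (hadd : ∀ x y, p x → p y → p (x + y)) (hsmul : ∀ (c : 𝕜) x, p x → p (c • x))
    (hcl : IsClosed {z | p z}) {x : Z 𝕜} (hx : x ∈ s.X 𝕜) : p x := by
  have h1 : (Submodule.span 𝕜 (s.gens 𝕜) : Set (Z 𝕜)) ⊆ {z | p z} := by
    intro z hz
    refine Submodule.span_induction (p := fun z _ => p z) ?_ h0 (fun x y _ _ => hadd x y)
      (fun c x _ => hsmul c x) hz
    rintro _ ⟨l, i, h, rfl⟩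
    exact hgen l i h
  have h2 : (s.X 𝕜 : Set (Z 𝕜)) ⊆ {z | p z} := by
    rw [X, Submodule.topologicalClosure_coe]
    exact closure_minimal h1 hcl
  exact h2 hx

/-- elements of the space are small on high levels -/
lemma small {x : Z 𝕜} (hx : x ∈ s.X 𝕜) : ∀ ε > 0, ∃ K, ∀ k ≥ K, ∀ g, ‖x (k, g)‖ ≤ ε := by
  refine s.X_induction (p := fun x => ∀ ε > 0, ∃ K, ∀ k ≥ K, ∀ g, ‖x (k, g)‖ ≤ ε) ?_ ?_ ?_ ?_ ?_ hx
  · intro l i hi ε hε
    refine ⟨l + 1, fun k hk g => ?_⟩
    have : ee s.sg s.tt l i (k, g) = 0 := by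
      unfold ee
      split_ifs with h1 h2 h3
      · dsimp only at h2; omega
      · dsimp only at h3; omega
      · rfl
      · rfl
    rw [E_apply, this]
    simpa using hε.le
  · intro ε hε
    exact ⟨0, fun k _ g => by simpa using hε.le⟩
  · intro x y hx hy ε hε
    obtain ⟨K, hK⟩ := hx (ε / 2) (by positivity)
    obtain ⟨K', hK'⟩ := hy (ε / 2) (by positivity)
    refine ⟨max K K', fun k hk g => ?_⟩
    rw [BoundedContinuousFunction.add_apply]
    refine (norm_add_le _ _).trans ?_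
    linarith [hK k (le_trans (le_max_left _ _) hk) g, hK' k (le_trans (le_max_right _ _) hk) g]
  · intro c x hx ε hε
    obtain ⟨K, hK⟩ := hx (ε / (‖c‖ + 1)) (by positivity)
    refine ⟨K, fun k hk g => ?_⟩
    rw [BoundedContinuousFunction.smul_apply, smul_eq_mul, norm_mul]
    have h1 := hK k hk g
    have h2 : ‖c‖ * ‖x (k, g)‖ ≤ (‖c‖ + 1) * (ε / (‖c‖ + 1)) := by
      gcongr
      linarith
    refine h2.trans ?_
    rw [mul_div_cancel₀]
    positivity
  · rw [← closure_eq_iff_isClosed]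
    refine Set.Subset.antisymm (fun x hx => ?_) subset_closure
    intro ε hε
    rw [Metric.mem_closure_iff] at hx
    obtain ⟨y, hy, hxy⟩ := hx (ε / 2) (by positivity)
    obtain ⟨K, hK⟩ := hy (ε / 2) (by positivity)
    refine ⟨K, fun k hk g => ?_⟩
    have h1 : ‖x (k, g) - y (k, g)‖ ≤ ε / 2 := by
      have := (x - y).norm_coe_le_norm (k, g)
      rw [BoundedContinuousFunction.sub_apply] at this
      rw [dist_eq_norm] at hxy
      linarith
    have h2 := norm_add_le (x (k, g) - y (k, g)) (y (k, g))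
    rw [sub_add_cancel] at h2
    linarith [hK k hk g]

/-- the biorthogonal functionals -/
def al (l j : ℕ) (z : Z 𝕜) : 𝕜 :=
  (1 / 2 ^ (l + 2) : 𝕜) * ∑ g ∈ range (2 ^ (l + 2)), ((s.sg l j g : ℝ) : 𝕜) * z (l, g)

/-- the second form of the biorthogonal functionals -/
def al' (l j : ℕ) (z : Z 𝕜) : 𝕜 :=
  (1 / 2 ^ (l + 2) : 𝕜) * ∑ g ∈ range (2 ^ (l + 2)), ((s.tt l j g : ℝ) : 𝕜) * z (l, g)

lemma al_add (l j : ℕ) (z w : Z 𝕜) : s.al l j (z + w) = s.al l j z + s.al l j w := by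
  unfold al
  rw [← mul_add, ← Finset.sum_add_distrib]
  congr 1
  refine Finset.sum_congr rfl fun g _ => ?_
  rw [BoundedContinuousFunction.add_apply, mul_add]

lemma al_smul (l j : ℕ) (c : 𝕜) (z : Z 𝕜) : s.al l j (c • z) = c * s.al l j z := by
  unfold al
  rw [mul_left_comm, Finset.mul_sum (a := c)]
  congr 1
  refine Finset.sum_congr rfl fun g _ => ?_
  rw [BoundedContinuousFunction.smul_apply, smul_eq_mul, mul_left_comm]

lemma al'_add (l j : ℕ) (z w : Z 𝕜) : s.al' l j (z + w) = s.al' l j z + s.al' l j w := by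
  unfold al'
  rw [← mul_add, ← Finset.sum_add_distrib]
  congr 1
  refine Finset.sum_congr rfl fun g _ => ?_
  rw [BoundedContinuousFunction.add_apply, mul_add]

lemma al'_smul (l j : ℕ) (c : 𝕜) (z : Z 𝕜) : s.al' l j (c • z) = c * s.al' l j z := by
  unfold al'
  rw [mul_left_comm, Finset.mul_sum (a := c)]
  congr 1
  refine Finset.sum_congr rfl fun g _ => ?_
  rw [BoundedContinuousFunction.smul_apply, smul_eq_mul, mul_left_comm]

lemma continuous_al (l j : ℕ) : Continuous (s.al (𝕜 := 𝕜) l j) := by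
  unfold al
  refine continuous_const.mul (continuous_finsetSum _ fun g _ => continuous_const.mul ?_)
  exact continuous_eval_const _

lemma continuous_al' (l j : ℕ) : Continuous (s.al' (𝕜 := 𝕜) l j) := by
  unfold al'
  refine continuous_const.mul (continuous_finsetSum _ fun g _ => continuous_const.mul ?_)
  exact continuous_eval_const _

lemma al_E (l j m i : ℕ) (hj : j < 2 ^ l) (hi : i < 2 ^ m) :
    s.al l j (s.E 𝕜 m i) = if m = l ∧ i = j then 1 else 0 := by
  have h1 : s.al l j (s.E 𝕜 m i) = (((1 / 2 ^ (l + 2) : ℝ) *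
      ∑ g ∈ range (2 ^ (l + 2)), s.sg l j g * ee s.sg s.tt m i (l, g) : ℝ) : 𝕜) := by
    unfold al
    push_cast
    rfl
  rw [h1]
  have h2 : ∀ g ∈ range (2 ^ (l + 2)), s.sg l j g * ee s.sg s.tt m i (l, g) =
      if l = m then s.sg l j g * s.sg l i g else if l + 1 = m then s.sg l j g * s.tt l i g else 0 := by
    intro g hg
    unfold ee
    dsimp only
    rw [if_pos (mem_range.1 hg)]
    by_cases h3 : l = m
    · subst h3; simp
    · rw [if_neg h3, if_neg h3]
      by_cases h4 : l + 1 = m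
      · rw [if_pos h4, if_pos h4]
      · rw [if_neg h4, if_neg h4, mul_zero]
  rw [Finset.sum_congr rfl h2]
  by_cases h3 : l = m
  · subst h3
    simp only [if_true, true_and]
    rw [s.sgsg l j hj i hi]
    by_cases h4 : i = j
    · subst h4
      rw [if_pos rfl, if_pos rfl]
      have : (1 / 2 ^ (l + 2) : ℝ) * 2 ^ (l + 2) = 1 := by
        rw [one_div, inv_mul_cancel₀]; positivity
      rw [this]; simp
    · rw [if_neg (fun h => h4 h.symm), if_neg h4, mul_zero]; simp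
  · simp only [if_neg h3]
    rw [if_neg (fun h => h3 h.1.symm)]
    by_cases h4 : l + 1 = m
    · subst h4
      simp only [if_true]
      rw [s.sgtt l j hj i hi, mul_zero]; simp
    · simp only [if_neg h4, Finset.sum_const_zero, mul_zero]; simp

lemma al'_E (l j m i : ℕ) (hj : j < 2 ^ (l + 1)) (hi : i < 2 ^ m) :
    s.al' l j (s.E 𝕜 m i) = if m = l + 1 ∧ i = j then 1 else 0 := by
  have h1 : s.al' l j (s.E 𝕜 m i) = (((1 / 2 ^ (l + 2) : ℝ) *
      ∑ g ∈ range (2 ^ (l + 2)), s.tt l j g * ee s.sg s.tt m i (l, g) : ℝ) : 𝕜) := by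
    unfold al'
    push_cast
    rfl
  rw [h1]
  have h2 : ∀ g ∈ range (2 ^ (l + 2)), s.tt l j g * ee s.sg s.tt m i (l, g) =
      if l = m then s.sg l i g * s.tt l j g else if l + 1 = m then s.tt l j g * s.tt l i g else 0 := by
    intro g hg
    unfold ee
    dsimp only
    rw [if_pos (mem_range.1 hg)]
    by_cases h3 : l = m
    · subst h3; simp [mul_comm]
    · rw [if_neg h3, if_neg h3]
      by_cases h4 : l + 1 = m
      · rw [if_pos h4, if_pos h4]
      · rw [if_neg h4, if_neg h4, mul_zero]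
  rw [Finset.sum_congr rfl h2]
  by_cases h3 : l = m
  · subst h3
    simp only [if_true]
    rw [s.sgtt l i hi j hj, if_neg (by omega), mul_zero]; simp
  · simp only [if_neg h3]
    by_cases h4 : l + 1 = m
    · subst h4
      simp only [if_true, true_and]
      rw [s.tttt l j hj i hi]
      by_cases h4 : i = j
      · subst h4
        rw [if_pos rfl, if_pos rfl]
        have : (1 / 2 ^ (l + 2) : ℝ) * 2 ^ (l + 2) = 1 := by
          rw [one_div, inv_mul_cancel₀]; positivity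
        rw [this]; simp
      · rw [if_neg (fun h => h4 h.symm), if_neg h4, mul_zero]; simp
    · rw [if_neg (fun h => h4 h.1.symm)]
      simp only [if_neg h4, Finset.sum_const_zero, mul_zero]; simp

/-- the two forms agree on the space -/
lemma al_eq (l j : ℕ) (hj : j < 2 ^ (l + 1)) {x : Z 𝕜} (hx : x ∈ s.X 𝕜) :
    s.al (l + 1) j x = s.al' l j x := by
  refine s.X_induction (p := fun x => s.al (l + 1) j x = s.al' l j x) ?_ ?_ ?_ ?_ ?_ hx
  · intro m i hi
    rw [s.al_E _ _ _ _ hj hi, s.al'_E _ _ _ _ hj hi]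
  · unfold al al'
    simp
  · intro x y hx hy
    rw [al_add, al'_add, hx, hy]
  · intro c x hx
    rw [al_smul, al'_smul, hx]
  · exact isClosed_eq (s.continuous_al _ _) (s.continuous_al' _ _)

lemma norm_al_le (l j : ℕ) (z : Z 𝕜) {M : ℝ} (hM : ∀ g, ‖z (l, g)‖ ≤ M) : ‖s.al l j z‖ ≤ M := by
  unfold al
  rw [norm_mul]
  have h1 : ‖(1 / 2 ^ (l + 2) : 𝕜)‖ = 1 / 2 ^ (l + 2) := by simp
  rw [h1]
  have h2 : ‖∑ g ∈ range (2 ^ (l + 2)), ((s.sg l j g : ℝ) : 𝕜) * z (l, g)‖ ≤ 2 ^ (l + 2) * M := by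
    refine (norm_sum_le _ _).trans ?_
    have h3 : ∑ g ∈ range (2 ^ (l + 2)), ‖((s.sg l j g : ℝ) : 𝕜) * z (l, g)‖ ≤
        ∑ g ∈ range (2 ^ (l + 2)), M := by
      refine Finset.sum_le_sum fun g _ => ?_
      rw [norm_mul, RCLike.norm_ofReal]
      have h4 := s.sg_le l j g
      have h5 := hM g
      calc |s.sg l j g| * ‖z (l, g)‖ ≤ 1 * M :=
            mul_le_mul h4 h5 (norm_nonneg _) zero_le_one
        _ = M := one_mul M
    refine h3.trans (le_of_eq ?_)
    rw [Finset.sum_const, card_range, nsmul_eq_mul]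
    push_cast
    ring
  calc (1 / 2 ^ (l + 2) : ℝ) * ‖∑ g ∈ range (2 ^ (l + 2)), ((s.sg l j g : ℝ) : 𝕜) * z (l, g)‖
      ≤ (1 / 2 ^ (l + 2)) * (2 ^ (l + 2) * M) := by gcongr
    _ = M := by field_simp

variable (𝕜)

/-- Davie's space as a type -/
def XT : Type := s.X 𝕜

instance : NormedAddCommGroup (s.XT 𝕜) := inferInstanceAs (NormedAddCommGroup (s.X 𝕜))
instance : NormedSpace 𝕜 (s.XT 𝕜) := inferInstanceAs (NormedSpace 𝕜 (s.X 𝕜))
instance : CompleteSpace (s.XT 𝕜) := inferInstanceAs (CompleteSpace (s.X 𝕜))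

/-- the inclusion in the space of bounded functions -/
def val : s.XT 𝕜 →ₗ[𝕜] Z 𝕜 := (s.X 𝕜).subtype

lemma val_mem (x : s.XT 𝕜) : s.val 𝕜 x ∈ s.X 𝕜 := Subtype.property (p := fun z => z ∈ s.X 𝕜) x

lemma norm_val (x : s.XT 𝕜) : ‖s.val 𝕜 x‖ = ‖x‖ := rfl

/-- generators as elements of the space -/
def EX (l i : ℕ) : s.XT 𝕜 := if h : i < 2 ^ l then (⟨s.E 𝕜 l i, s.E_mem 𝕜 h⟩ : s.X 𝕜) else (0 : s.X 𝕜)

lemma EX_coe {l i : ℕ} (h : i < 2 ^ l) : s.val 𝕜 (s.EX 𝕜 l i) = s.E 𝕜 l i := by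
  unfold EX
  rw [dif_pos h]
  rfl

/-- the vectors of the compact set -/
def Phi (k g : ℕ) : s.XT 𝕜 :=
  (1 / 2 ^ (k + 1) : 𝕜) • (∑ j ∈ range (2 ^ (k + 1)), ((s.tt k j g : ℝ) : 𝕜) • s.EX 𝕜 (k + 1) j) -
    (1 / 2 ^ k : 𝕜) • (∑ j ∈ range (2 ^ k), ((s.sg k j g : ℝ) : 𝕜) • s.EX 𝕜 k j)

lemma Phi_apply (k g : ℕ) (x : ℕ × ℕ) : s.val 𝕜 (s.Phi 𝕜 k g) x =
    (((1 / 2 ^ (k + 1) : ℝ) * (∑ j ∈ range (2 ^ (k + 1)), s.tt k j g * ee s.sg s.tt (k + 1) j x) -
      (1 / 2 ^ k : ℝ) * (∑ j ∈ range (2 ^ k), s.sg k j g * ee s.sg s.tt k j x) : ℝ) : 𝕜) := by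
  have h1 : ∀ (c : ℕ → ℝ) (l : ℕ), s.val 𝕜 (∑ j ∈ range (2 ^ l), ((c j : ℝ) : 𝕜) • s.EX 𝕜 l j) x =
      ((∑ j ∈ range (2 ^ l), c j * ee s.sg s.tt l j x : ℝ) : 𝕜) := by
    intro c l
    rw [map_sum, BoundedContinuousFunction.sum_apply]
    push_cast
    refine Finset.sum_congr rfl fun j hj => ?_
    rw [map_smul, BoundedContinuousFunction.smul_apply, s.EX_coe 𝕜 (mem_range.1 hj), E_apply]
    rfl
  unfold Phi
  rw [map_sub, BoundedContinuousFunction.sub_apply, map_smul, map_smul,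
    BoundedContinuousFunction.smul_apply, BoundedContinuousFunction.smul_apply, h1, h1]
  push_cast
  rfl

/-- the size of the vectors `Phi` -/
def cc (k : ℕ) : ℝ := 20 * (k + 1) * Real.sqrt (2 ^ k) / 2 ^ k

lemma norm_Phi_le (k g : ℕ) (hg : g < 2 ^ (k + 2)) : ‖s.Phi 𝕜 k g‖ ≤ cc k := by
  have hs : 0 ≤ Real.sqrt (2 ^ k) := Real.sqrt_nonneg _
  have hcc : 0 ≤ cc k := by unfold cc; positivity
  have h20 : 20 * (k + 1) * Real.sqrt (2 ^ k) = cc k * 2 ^ k := by
    unfold cc; field_simp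
  rw [← norm_val]
  refine (BoundedContinuousFunction.norm_le hcc).2 fun x => ?_
  rw [Phi_apply, RCLike.norm_ofReal]
  obtain ⟨l, h⟩ := x
  by_cases hh : h < 2 ^ (l + 2)
  swap
  · have h1 : ∀ m j, ee s.sg s.tt m j (l, h) = 0 := by
      intro m j
      unfold ee
      rw [if_neg hh]
    simp only [h1, mul_zero, Finset.sum_const_zero, sub_zero, abs_zero]
    exact hcc
  have hee : ∀ m j, ee s.sg s.tt m j (l, h) =
      if l = m then s.sg l j h else if l + 1 = m then s.tt l j h else 0 := by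
    intro m j
    unfold ee
    rw [if_pos hh]
    dsimp only
    by_cases h3 : l = m
    · subst h3; simp
    · rw [if_neg h3, if_neg h3]
  simp only [hee]
  have hpos : (0 : ℝ) < 2 ^ k := by positivity
  rcases lt_trichotomy l k with hlk | hlk | hlk
  · -- l < k
    rcases eq_or_ne (l + 1) k with h1 | h1
    · -- l = k - 1
      subst h1
      have e1 : ∑ j ∈ range (2 ^ (l + 1 + 1)), s.tt (l + 1) j g *
          (if l = l + 1 + 1 then s.sg l j h else if l + 1 = l + 1 + 1 then s.tt l j h else 0) = 0 :=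
        Finset.sum_eq_zero fun j _ => by
          rw [if_neg (by omega), if_neg (by omega), mul_zero]
      have e2 : ∑ j ∈ range (2 ^ (l + 1)), s.sg (l + 1) j g *
          (if l = l + 1 then s.sg l j h else if l + 1 = l + 1 then s.tt l j h else 0) =
          ∑ j ∈ range (2 ^ (l + 1)), s.tt l j h * s.sg (l + 1) j g :=
        Finset.sum_congr rfl fun j _ => by
          rw [if_neg (by omega), if_pos rfl, mul_comm]
      rw [e1, e2, mul_zero, zero_sub, abs_neg, abs_mul]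
      have h2 := s.cross l h hh g (by
        have : l + 1 + 2 = l + 3 := by ring
        rw [this] at hg; exact hg)
      rw [abs_of_nonneg (by positivity), div_mul_eq_mul_div, one_mul, div_le_iff₀ (by positivity)]
      refine h2.trans ?_
      rw [← h20]
      push_cast
      have h3 : Real.sqrt (2 ^ l) ≤ Real.sqrt (2 ^ (l + 1)) :=
        Real.sqrt_le_sqrt (pow_le_pow_right₀ (by norm_num) (by omega))
      have h4 : 0 ≤ Real.sqrt (2 ^ l) := Real.sqrt_nonneg _
      have h5 : (20 * ((l : ℝ) + 1)) ≤ 20 * ((l : ℝ) + 1 + 1) := by linarith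
      exact mul_le_mul h5 h3 h4 (by positivity)
    · have e1 : ∀ m, (m = k ∨ m = k + 1) → ∀ c : ℕ → ℝ, ∑ j ∈ range (2 ^ m), c j *
          (if l = m then s.sg l j h else if l + 1 = m then s.tt l j h else 0) = 0 := by
        intro m hm c
        exact Finset.sum_eq_zero fun j _ => by
          rw [if_neg (by omega), if_neg (by omega), mul_zero]
      rw [e1 (k + 1) (Or.inr rfl), e1 k (Or.inl rfl), mul_zero, mul_zero, sub_zero, abs_zero]
      exact hcc
  · -- l = k
    subst hlk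
    have e1 : ∑ j ∈ range (2 ^ (l + 1)), s.tt l j g *
        (if l = l + 1 then s.sg l j h else if l + 1 = l + 1 then s.tt l j h else 0) =
        ∑ j ∈ range (2 ^ (l + 1)), s.tt l j g * s.tt l j h :=
      Finset.sum_congr rfl fun j _ => by
        rw [if_neg (by omega), if_pos rfl]
    have e2 : ∑ j ∈ range (2 ^ l), s.sg l j g *
        (if l = l then s.sg l j h else if l + 1 = l then s.tt l j h else 0) =
        ∑ j ∈ range (2 ^ l), s.sg l j g * s.sg l j h :=
      Finset.sum_congr rfl fun j _ => by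
        rw [if_pos rfl]
    rw [e1, e2]
    have h2 := s.flat l g hg h hh
    have e3 : (1 / 2 ^ (l + 1) : ℝ) * (∑ j ∈ range (2 ^ (l + 1)), s.tt l j g * s.tt l j h) -
        (1 / 2 ^ l) * ∑ j ∈ range (2 ^ l), s.sg l j g * s.sg l j h =
        (1 / 2 ^ (l + 1)) * (∑ j ∈ range (2 ^ (l + 1)), s.tt l j g * s.tt l j h
          - 2 * ∑ j ∈ range (2 ^ l), s.sg l j g * s.sg l j h) := by
      rw [pow_succ]; field_simp
    rw [e3, abs_mul, abs_of_nonneg (by positivity), div_mul_eq_mul_div, one_mul,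
      div_le_iff₀ (by positivity)]
    refine h2.trans ?_
    rw [h20, pow_succ]
    nlinarith
  · -- l > k
    rcases eq_or_ne l (k + 1) with h1 | h1
    · subst h1
      have e1 : ∑ j ∈ range (2 ^ (k + 1)), s.tt k j g *
          (if k + 1 = k + 1 then s.sg (k + 1) j h else if k + 1 + 1 = k + 1 then s.tt (k + 1) j h else 0) =
          ∑ j ∈ range (2 ^ (k + 1)), s.tt k j g * s.sg (k + 1) j h :=
        Finset.sum_congr rfl fun j _ => by
          rw [if_pos rfl]
      have e2 : ∑ j ∈ range (2 ^ k), s.sg k j g *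
          (if k + 1 = k then s.sg (k + 1) j h else if k + 1 + 1 = k then s.tt (k + 1) j h else 0) = 0 :=
        Finset.sum_eq_zero fun j _ => by
          rw [if_neg (by omega), if_neg (by omega), mul_zero]
      rw [e1, e2, mul_zero, sub_zero, abs_mul, abs_of_nonneg (by positivity), div_mul_eq_mul_div,
        one_mul, div_le_iff₀ (by positivity)]
      have h2 := s.cross k g hg h hh
      refine h2.trans ?_
      rw [h20, pow_succ]
      nlinarith
    · have e1 : ∀ m, (m = k ∨ m = k + 1) → ∀ c : ℕ → ℝ, ∑ j ∈ range (2 ^ m), c j *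
          (if l = m then s.sg l j h else if l + 1 = m then s.tt l j h else 0) = 0 := by
        intro m hm c
        exact Finset.sum_eq_zero fun j _ => by
          rw [if_neg (by omega), if_neg (by omega), mul_zero]
      rw [e1 (k + 1) (Or.inr rfl), e1 k (Or.inl rfl), mul_zero, mul_zero, sub_zero, abs_zero]
      exact hcc

end Sys

end Pool.Agent.H812R2.AP
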