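import Pool.Agent.H812R2.AP.Approx

set_option autoImplicit false
set_option linter.unusedSectionVars false

/-! # The ideal of operators factoring through a Hilbert space -/

open Filter Topology
open scoped ENNReal

noncomputable section

namespace Pool.Agent.H812R2.AP

variable {𝕜 : Type} [RCLike 𝕜]

/-- A pair of operators `A : X → H`, `B : H → Y` with `H` a Hilbert space. -/
structure HPair (𝕜 : Type) [RCLike 𝕜] (X Y : Type) [NormedAddCommGroup X] [NormedSpace 𝕜 X]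
    [NormedAddCommGroup Y] [NormedSpace 𝕜 Y] where
  H : Type
  [i1 : NormedAddCommGroup H]
  [i2 : InnerProductSpace 𝕜 H]
  [i3 : CompleteSpace H]
  A : X →L[𝕜] H
  B : H →L[𝕜] Y

attribute [instance] HPair.i1 HPair.i2 HPair.i3

variable {W X Y Z : Type} [NormedAddCommGroup W] [NormedSpace 𝕜 W]
  [NormedAddCommGroup X] [NormedSpace 𝕜 X]
  [NormedAddCommGroup Y] [NormedSpace 𝕜 Y]
  [NormedAddCommGroup Z] [NormedSpace 𝕜 Z]

/-- `T = B A` through a Hilbert space with `‖A‖ ‖B‖ ≤ c`. -/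
def Fac (T : X →L[𝕜] Y) (c : ℝ) : Prop :=
  ∃ F : HPair 𝕜 X Y, T = F.B ∘L F.A ∧ ‖F.A‖ * ‖F.B‖ ≤ c

/-- The norm `γ₂(T)`: the infimum of `‖A‖ ‖B‖` over all factorisations `T = B A` through a Hilbert
space. -/
def gammaTwo (T : X →L[𝕜] Y) : ℝ := sInf {c : ℝ | Fac T c}

/-- balanced factorisations -/
def Bal (T : X →L[𝕜] Y) (d : ℝ) : Prop :=
  ∃ F : HPair 𝕜 X Y, T = F.B ∘L F.A ∧ ‖F.A‖ ^ 2 ≤ d ∧ ‖F.B‖ ^ 2 ≤ d

lemma Fac.nonneg {T : X →L[𝕜] Y} {c : ℝ} (h : Fac T c) : 0 ≤ c := by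
  obtain ⟨F, -, h⟩ := h
  exact (by positivity : 0 ≤ ‖F.A‖ * ‖F.B‖).trans h

lemma Fac.norm_le {T : X →L[𝕜] Y} {c : ℝ} (h : Fac T c) : ‖T‖ ≤ c := by
  obtain ⟨F, rfl, h⟩ := h
  refine (ContinuousLinearMap.opNorm_comp_le _ _).trans ?_
  rw [mul_comm]; exact h

lemma gammaTwo_le {T : X →L[𝕜] Y} {c : ℝ} (h : Fac T c) : gammaTwo T ≤ c :=
  csInf_le ⟨0, fun _ h => h.nonneg⟩ h

lemma gammaTwo_nonneg (T : X →L[𝕜] Y) : 0 ≤ gammaTwo T := Real.sInf_nonneg fun _ h => h.nonneg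

lemma exists_fac {T : X →L[𝕜] Y} (h : ∃ c, Fac T c) {d : ℝ} (hd : gammaTwo T < d) :
    ∃ c < d, Fac T c := by
  obtain ⟨c, hc, hcd⟩ := exists_lt_of_csInf_lt h hd
  exact ⟨c, hcd, hc⟩

lemma norm_le_gammaTwo {T : X →L[𝕜] Y} (h : ∃ c, Fac T c) : ‖T‖ ≤ gammaTwo T :=
  le_csInf h fun _ hc => hc.norm_le

lemma Bal.fac {T : X →L[𝕜] Y} {d : ℝ} (h : Bal T d) : Fac T d := by
  obtain ⟨F, h1, h2, h3⟩ := h
  refine ⟨F, h1, ?_⟩
  nlinarith [sq_nonneg (‖F.A‖ - ‖F.B‖)]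

lemma Fac.bal {T : X →L[𝕜] Y} {c d : ℝ} (h : Fac T c) (hcd : c < d) : Bal T d := by
  have hd : 0 < d := h.nonneg.trans_lt hcd
  obtain ⟨F, h1, h2⟩ := h
  by_cases hA : ‖F.A‖ = 0
  · have hA0 : F.A = 0 := norm_eq_zero.1 hA
    refine ⟨⟨F.H, 0, 0⟩, ?_, ?_, ?_⟩
    · rw [h1, hA0]; simp
    · simpa using hd.le
    · simpa using hd.le
  · have hA' : 0 < ‖F.A‖ := lt_of_le_of_ne (norm_nonneg _) (Ne.symm hA)
    set t : ℝ := Real.sqrt d / ‖F.A‖ with ht
    have hs : 0 < Real.sqrt d := Real.sqrt_pos.2 hd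
    have ht0 : 0 < t := by positivity
    have hsq : Real.sqrt d ^ 2 = d := Real.sq_sqrt hd.le
    refine ⟨⟨F.H, ((t : ℝ) : 𝕜) • F.A, ((t⁻¹ : ℝ) : 𝕜) • F.B⟩, ?_, ?_, ?_⟩
    · rw [h1]
      ext x
      simp only [ContinuousLinearMap.comp_apply, smul_apply, map_smul, smul_smul]
      rw [← RCLike.ofReal_mul, mul_inv_cancel₀ ht0.ne', RCLike.ofReal_one, one_smul]
    · rw [norm_smul, RCLike.norm_ofReal, abs_of_pos ht0, ht, div_mul_cancel₀ _ hA, hsq]
    · rw [norm_smul, RCLike.norm_ofReal, abs_of_pos (inv_pos.2 ht0), ht, inv_div, div_mul_eq_mul_div,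
        div_pow, hsq, div_le_iff₀ hd]
      have : (‖F.A‖ * ‖F.B‖) ^ 2 ≤ d ^ 2 := pow_le_pow_left₀ (by positivity) (by linarith) 2
      nlinarith

lemma bal_zero {d : ℝ} (hd : 0 ≤ d) : Bal (0 : X →L[𝕜] Y) d :=
  ⟨⟨𝕜, 0, 0⟩, by simp, by simpa using hd, by simpa using hd⟩

section Sum
variable {T : ℕ → (X →L[𝕜] Y)} {d : ℕ → ℝ} (F : ℕ → HPair 𝕜 X Y)
  (hA : ∀ n, ‖(F n).A‖ ^ 2 ≤ d n) (hB : ∀ n, ‖(F n).B‖ ^ 2 ≤ d n) (hd : Summable d)

/-- the sum of the Hilbert spaces -/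
abbrev HS : Type := lp (fun n => (F n).H) 2

lemma two_toReal : (2 : ℝ≥0∞).toReal = 2 := by norm_num

include hA hd in
lemma memA (x : X) : Memℓp (fun n => (F n).A x) 2 := by
  refine memℓp_gen ?_
  rw [two_toReal]
  simp only [Real.rpow_two]
  refine Summable.of_nonneg_of_le (fun n => by positivity) (fun n => ?_) (hd.mul_right (‖x‖ ^ 2))
  calc ‖(F n).A x‖ ^ 2 ≤ (‖(F n).A‖ * ‖x‖) ^ 2 := pow_le_pow_left₀ (norm_nonneg _) ((F n).A.le_opNorm x) 2
    _ = ‖(F n).A‖ ^ 2 * ‖x‖ ^ 2 := by ring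
    _ ≤ d n * ‖x‖ ^ 2 := mul_le_mul_of_nonneg_right (hA n) (by positivity)

lemma norm_sq_HS (h : HS F) : ‖h‖ ^ 2 = ∑' n, ‖h n‖ ^ 2 := by
  have := lp.norm_rpow_eq_tsum (p := 2) (by norm_num) h
  rw [two_toReal] at this
  simpa only [Real.rpow_two] using this

lemma summable_HS (h : HS F) : Summable fun n => ‖h n‖ ^ 2 := by
  have := (lp.memℓp h).summable (by norm_num)
  rw [two_toReal] at this
  simpa only [Real.rpow_two] using this

lemma norm_le_sqrt {a b c : ℝ} (ha : 0 ≤ a) (hb : 0 ≤ b) (hc : 0 ≤ c) (h : a ^ 2 ≤ c * b ^ 2) :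
    a ≤ Real.sqrt c * b := by
  refine le_of_sq_le_sq ?_ (by positivity)
  rw [mul_pow, Real.sq_sqrt hc]
  exact h
where
  le_of_sq_le_sq {x y : ℝ} (h : x ^ 2 ≤ y ^ 2) (hy : 0 ≤ y) : x ≤ y := by
    exact (abs_le_of_sq_le_sq' h hy).2

include hA in
lemma dnn (n : ℕ) : 0 ≤ d n := (by positivity : 0 ≤ ‖(F n).A‖ ^ 2).trans (hA n)

/-- the first operator -/
def totA : X →L[𝕜] HS F :=
  LinearMap.mkContinuous
    { toFun := fun x => ⟨fun n => (F n).A x, memA F hA hd x⟩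
      map_add' := fun x y => by
        apply lp.ext
        funext n
        simp
      map_smul' := fun c x => by
        apply lp.ext
        funext n
        simp } (Real.sqrt (∑' n, d n)) (fun x => by
          refine norm_le_sqrt (norm_nonneg _) (norm_nonneg _) (tsum_nonneg (dnn F hA)) ?_
          rw [norm_sq_HS, ← tsum_mul_right]
          refine Summable.tsum_le_tsum (fun n => ?_) (summable_HS F _) (hd.mul_right _)
          calc ‖(F n).A x‖ ^ 2 ≤ (‖(F n).A‖ * ‖x‖) ^ 2 :=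
                pow_le_pow_left₀ (norm_nonneg _) ((F n).A.le_opNorm x) 2
            _ = ‖(F n).A‖ ^ 2 * ‖x‖ ^ 2 := by ring
            _ ≤ d n * ‖x‖ ^ 2 := mul_le_mul_of_nonneg_right (hA n) (by positivity))

lemma totA_apply (x : X) (n : ℕ) : totA F hA hd x n = (F n).A x := rfl

lemma norm_totA : ‖totA F hA hd‖ ^ 2 ≤ ∑' n, d n := by
  have h1 : ‖totA F hA hd‖ ≤ Real.sqrt (∑' n, d n) :=
    LinearMap.mkContinuous_norm_le _ (Real.sqrt_nonneg _) _
  have h2 := pow_le_pow_left₀ (norm_nonneg _) h1 2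
  rwa [Real.sq_sqrt (tsum_nonneg (dnn F hA))] at h2

include hB hd in
lemma key (h : HS F) : (Summable fun n => ‖(F n).B‖ * ‖h n‖) ∧
    ∑' n, ‖(F n).B‖ * ‖h n‖ ≤ Real.sqrt (∑' n, d n) * ‖h‖ := by
  have hs : Summable fun n => ‖(F n).B‖ ^ 2 :=
    Summable.of_nonneg_of_le (fun n => by positivity) hB hd
  have h1 := Real.inner_le_Lp_mul_Lq_tsum_of_nonneg (f := fun n => ‖(F n).B‖) (g := fun n => ‖h n‖)
    (p := 2) (q := 2) Real.HolderConjugate.two_two (fun n => norm_nonneg _) (fun n => norm_nonneg _)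
    (by simpa only [Real.rpow_two] using hs) (by simpa only [Real.rpow_two] using summable_HS F h)
  have h0 : Summable fun n => ‖(F n).B‖ * ‖h n‖ := by
    refine Summable.of_nonneg_of_le (fun n => by positivity) (fun n => ?_) (hs.add (summable_HS F h))
    nlinarith [sq_nonneg (‖(F n).B‖ - ‖h n‖), sq_nonneg (‖(F n).B‖ + ‖h n‖)]
  refine ⟨h0, h1.trans ?_⟩
  simp only [Real.rpow_two]
  rw [← norm_sq_HS, ← Real.sqrt_eq_rpow, ← Real.sqrt_eq_rpow, Real.sqrt_sq (norm_nonneg _)]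
  refine mul_le_mul_of_nonneg_right (Real.sqrt_le_sqrt ?_) (norm_nonneg _)
  exact Summable.tsum_le_tsum hB hs hd

variable [CompleteSpace Y]

include hB hd in
lemma summableB (h : HS F) : Summable fun n => (F n).B (h n) :=
  Summable.of_norm_bounded (key F hB hd h).1 fun n => (F n).B.le_opNorm _

/-- the second operator -/
def totB : HS F →L[𝕜] Y :=
  LinearMap.mkContinuous
    { toFun := fun h => ∑' n, (F n).B (h n)
      map_add' := fun x y => by
        rw [← (summableB F hB hd x).tsum_add (summableB F hB hd y)]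
        exact tsum_congr fun n => by simp
      map_smul' := fun c x => by
        rw [RingHom.id_apply, ← (summableB F hB hd x).tsum_const_smul c]
        exact tsum_congr fun n => by simp } (Real.sqrt (∑' n, d n)) (fun h => by
          refine le_trans ?_ (key F hB hd h).2
          refine (norm_tsum_le_tsum_norm ?_).trans ?_
          · exact Summable.of_nonneg_of_le (fun n => norm_nonneg _) (fun n => (F n).B.le_opNorm _)
              (key F hB hd h).1
          · refine Summable.tsum_le_tsum (fun n => (F n).B.le_opNorm _) ?_ (key F hB hd h).1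
            exact Summable.of_nonneg_of_le (fun n => norm_nonneg _) (fun n => (F n).B.le_opNorm _)
              (key F hB hd h).1)

lemma totB_apply (h : HS F) : totB F hB hd h = ∑' n, (F n).B (h n) := rfl

include hA in
lemma norm_totB : ‖totB F hB hd‖ ^ 2 ≤ ∑' n, d n := by
  have h1 : ‖totB F hB hd‖ ≤ Real.sqrt (∑' n, d n) :=
    LinearMap.mkContinuous_norm_le _ (Real.sqrt_nonneg _) _
  have h2 := pow_le_pow_left₀ (norm_nonneg _) h1 2
  rwa [Real.sq_sqrt (tsum_nonneg (dnn F hA))] at h2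

end Sum

lemma Bal.tsum [CompleteSpace Y] {T : ℕ → (X →L[𝕜] Y)} {d : ℕ → ℝ} (h : ∀ n, Bal (T n) (d n))
    (hd : Summable d) (S : X →L[𝕜] Y) (hS : ∀ x, HasSum (fun n => T n x) (S x)) :
    Bal S (∑' n, d n) := by
  choose F hT hA hB using h
  refine ⟨⟨HS F, totA F hA hd, totB F hB hd⟩, ?_, norm_totA F hA hd, norm_totB F hA hB hd⟩
  ext x
  rw [ContinuousLinearMap.comp_apply, totB_apply, ← (hS x).tsum_eq]
  refine tsum_congr fun n => ?_
  rw [totA_apply, hT]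
  rfl

lemma Bal.add [CompleteSpace Y] {S T : X →L[𝕜] Y} {c d : ℝ} (hS : Bal S c) (hT : Bal T d) :
    Bal (S + T) (c + d) := by
  let T' : ℕ → (X →L[𝕜] Y) := fun n => if n = 0 then S else if n = 1 then T else 0
  let d' : ℕ → ℝ := fun n => if n = 0 then c else if n = 1 then d else 0
  have hz : ∀ n, n ∉ Finset.range 2 → d' n = 0 := by
    intro n hn
    have h0 : n ≠ 0 := by rintro rfl; exact hn (by simp)
    have h1 : n ≠ 1 := by rintro rfl; exact hn (by simp)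
    simp only [d', if_neg h0, if_neg h1]
  have hz' : ∀ n, n ∉ Finset.range 2 → T' n = 0 := by
    intro n hn
    have h0 : n ≠ 0 := by rintro rfl; exact hn (by simp)
    have h1 : n ≠ 1 := by rintro rfl; exact hn (by simp)
    simp only [T', if_neg h0, if_neg h1]
  have hsum : HasSum d' (c + d) := by
    have : HasSum d' (∑ b ∈ Finset.range 2, d' b) := hasSum_sum_of_ne_finset_zero hz
    rwa [Finset.sum_range_succ, Finset.sum_range_one] at this
  have h := Bal.tsum (T := T') (d := d') (fun n => by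
    simp only [T', d']
    split_ifs
    · exact hS
    · exact hT
    · exact bal_zero le_rfl) hsum.summable (S + T) (fun x => by
      have : HasSum (fun n => T' n x) (∑ n ∈ Finset.range 2, T' n x) :=
        hasSum_sum_of_ne_finset_zero (fun n hn => by rw [hz' n hn]; rfl)
      rwa [Finset.sum_range_succ, Finset.sum_range_one] at this)
  rwa [hsum.tsum_eq] at h

lemma gammaTwo_add_le [CompleteSpace Y] {S T : X →L[𝕜] Y} (hS : ∃ c, Fac S c) (hT : ∃ c, Fac T c) :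
    gammaTwo (S + T) ≤ gammaTwo S + gammaTwo T := by
  refine le_of_forall_pos_le_add fun ε hε => ?_
  obtain ⟨c, hc, h1⟩ := exists_fac hS (show gammaTwo S < gammaTwo S + ε / 2 by linarith)
  obtain ⟨d, hd, h2⟩ := exists_fac hT (show gammaTwo T < gammaTwo T + ε / 2 by linarith)
  have h3 := gammaTwo_le ((h1.bal hc).add (h2.bal hd)).fac
  linarith

lemma Fac.comp (R : Y →L[𝕜] Z) {T : X →L[𝕜] Y} (S : W →L[𝕜] X) {c : ℝ} (h : Fac T c) :
    Fac (R ∘L T ∘L S) (‖R‖ * c * ‖S‖) := by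
  obtain ⟨F, rfl, h⟩ := h
  refine ⟨⟨F.H, F.A ∘L S, R ∘L F.B⟩, rfl, ?_⟩
  calc ‖F.A ∘L S‖ * ‖R ∘L F.B‖ ≤ (‖F.A‖ * ‖S‖) * (‖R‖ * ‖F.B‖) :=
        mul_le_mul (ContinuousLinearMap.opNorm_comp_le _ _) (ContinuousLinearMap.opNorm_comp_le _ _)
          (norm_nonneg _) (by positivity)
    _ = ‖R‖ * (‖F.A‖ * ‖F.B‖) * ‖S‖ := by ring
    _ ≤ ‖R‖ * c * ‖S‖ := by gcongr

lemma gammaTwo_comp_le (R : Y →L[𝕜] Z) {T : X →L[𝕜] Y} (S : W →L[𝕜] X) (h : ∃ c, Fac T c) :
    gammaTwo (R ∘L T ∘L S) ≤ ‖R‖ * gammaTwo T * ‖S‖ := by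
  refine le_of_forall_pos_le_add fun ε hε => ?_
  set δ : ℝ := ε / (‖R‖ * ‖S‖ + 1) with hδ
  have hδ0 : 0 < δ := by positivity
  obtain ⟨c, hc, h1⟩ := exists_fac h (show gammaTwo T < gammaTwo T + δ by linarith)
  have h2 := gammaTwo_le (h1.comp R S)
  have h3 : ‖R‖ * c * ‖S‖ ≤ ‖R‖ * (gammaTwo T + δ) * ‖S‖ := by gcongr
  have h4 : ‖R‖ * δ * ‖S‖ ≤ ε := by
    calc ‖R‖ * δ * ‖S‖ = (‖R‖ * ‖S‖) * δ := by ring
      _ ≤ (‖R‖ * ‖S‖ + 1) * δ := by nlinarith
      _ = ε := by rw [hδ]; field_simp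
  nlinarith

lemma Fac.smul (a : 𝕜) {T : X →L[𝕜] Y} {c : ℝ} (h : Fac T c) : Fac (a • T) (‖a‖ * c) := by
  obtain ⟨F, rfl, h⟩ := h
  refine ⟨⟨F.H, F.A, a • F.B⟩, rfl, ?_⟩
  dsimp only
  rw [norm_smul]
  calc ‖F.A‖ * (‖a‖ * ‖F.B‖) = ‖a‖ * (‖F.A‖ * ‖F.B‖) := by ring
    _ ≤ ‖a‖ * c := by gcongr

lemma gammaTwo_smul_le (a : 𝕜) {T : X →L[𝕜] Y} (h : ∃ c, Fac T c) :
    gammaTwo (a • T) ≤ ‖a‖ * gammaTwo T := by
  refine le_of_forall_pos_le_add fun ε hε => ?_
  set δ : ℝ := ε / (‖a‖ + 1) with hδ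
  have hδ0 : 0 < δ := by positivity
  obtain ⟨c, hc, h1⟩ := exists_fac h (show gammaTwo T < gammaTwo T + δ by linarith)
  have h2 := gammaTwo_le (h1.smul a)
  have h3 : ‖a‖ * c ≤ ‖a‖ * (gammaTwo T + δ) := by gcongr
  have h4 : ‖a‖ * δ ≤ ε := by
    calc ‖a‖ * δ ≤ (‖a‖ + 1) * δ := by nlinarith
      _ = ε := by rw [hδ]; field_simp
  nlinarith

lemma gammaTwo_smul (a : 𝕜) {T : X →L[𝕜] Y} (h : ∃ c, Fac T c) :
    gammaTwo (a • T) = ‖a‖ * gammaTwo T := by
  refine le_antisymm (gammaTwo_smul_le a h) ?_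
  by_cases ha : a = 0
  · rw [ha, norm_zero, zero_mul]
    exact gammaTwo_nonneg _
  · obtain ⟨c, hc⟩ := h
    have h1 := gammaTwo_smul_le a⁻¹ ⟨_, hc.smul a⟩
    rw [smul_smul, inv_mul_cancel₀ ha, one_smul, norm_inv] at h1
    have h2 : 0 < ‖a‖ := norm_pos_iff.2 ha
    calc ‖a‖ * gammaTwo T ≤ ‖a‖ * (‖a‖⁻¹ * gammaTwo (a • T)) := by gcongr
      _ = gammaTwo (a • T) := by rw [← mul_assoc, mul_inv_cancel₀ h2.ne', one_mul]

lemma fac_of_finiteRank {T : X →L[𝕜] Y} (h : FiniteRank T) : ∃ c, Fac T c := by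
  unfold FiniteRank at h
  set V := LinearMap.range (T : X →ₗ[𝕜] Y) with hV
  let n := Module.finrank 𝕜 V
  have hn : Module.finrank 𝕜 V = Module.finrank 𝕜 (EuclideanSpace 𝕜 (Fin n)) := by simp [n]
  let e : V ≃L[𝕜] EuclideanSpace 𝕜 (Fin n) := ContinuousLinearEquiv.ofFinrankEq hn
  let T' : X →L[𝕜] V := T.codRestrict V (fun x => ⟨x, rfl⟩)
  refine ⟨_, ⟨⟨EuclideanSpace 𝕜 (Fin n), (e : V →L[𝕜] EuclideanSpace 𝕜 (Fin n)) ∘L T',
    V.subtypeL ∘L (e.symm : EuclideanSpace 𝕜 (Fin n) →L[𝕜] V)⟩, ?_, le_rfl⟩⟩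
  ext x
  simp [T']

lemma fac_rankOne (f : X →L[𝕜] 𝕜) (y : Y) : Fac (f.smulRight y) (‖f‖ * ‖y‖) := by
  refine ⟨⟨𝕜, f, (ContinuousLinearMap.id 𝕜 𝕜).smulRight y⟩, ?_, ?_⟩
  · ext x
    simp
  · dsimp only
    rw [ContinuousLinearMap.norm_smulRight_apply, ContinuousLinearMap.norm_id, one_mul]

lemma gammaTwo_rankOne (f : X →L[𝕜] 𝕜) (y : Y) : gammaTwo (f.smulRight y) = ‖f‖ * ‖y‖ := by
  refine le_antisymm (gammaTwo_le (fac_rankOne f y)) ?_
  rw [← ContinuousLinearMap.norm_smulRight_apply]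
  exact norm_le_gammaTwo ⟨_, fac_rankOne f y⟩

lemma fac_neg_sub [CompleteSpace Y] {S T : X →L[𝕜] Y} (hS : ∃ c, Fac S c) (hT : ∃ c, Fac T c) :
    ∃ c, Fac (S - T) c := by
  obtain ⟨c, hc⟩ := hS
  obtain ⟨d, hd⟩ := hT
  have h1 := (hc.bal (lt_add_one c)).add ((hd.smul (-1 : 𝕜)).bal (lt_add_one _))
  rw [neg_one_smul, ← sub_eq_add_neg] at h1
  exact ⟨_, h1.fac⟩

lemma gammaTwo_complete [CompleteSpace Y] (T : ℕ → (X →L[𝕜] Y)) (hT : ∀ n, ∃ c, Fac (T n) c)
    (hc : ∀ ε > 0, ∃ N, ∀ m ≥ N, ∀ n ≥ N, gammaTwo (T m - T n) ≤ ε) :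
    ∃ S : X →L[𝕜] Y, (∃ c, Fac S c) ∧ Tendsto (fun n => gammaTwo (T n - S)) atTop (𝓝 0) := by
  have h1 : CauchySeq T := by
    rw [Metric.cauchySeq_iff]
    intro ε hε
    obtain ⟨N, hN⟩ := hc (ε / 2) (by positivity)
    refine ⟨N, fun m hm n hn => ?_⟩
    rw [dist_eq_norm]
    have h2 := hN m hm n hn
    have h3 := norm_le_gammaTwo (fac_neg_sub (hT m) (hT n))
    linarith
  obtain ⟨S, hS⟩ := cauchySeq_tendsto_of_complete h1
  -- the crucial estimate
  have key : ∀ ε > 0, ∃ N, ∀ n ≥ N, Fac (S - T n) (3 * ε) := by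
    intro ε hε
    choose N hN using fun k : ℕ => hc (ε * (1 / 2) ^ k) (by positivity)
    refine ⟨N 0, fun n hn => ?_⟩
    -- an increasing sequence of indices
    let a : ℕ → ℕ := fun k => n + ∑ i ∈ Finset.range (k + 1), N i + k
    let b : ℕ → ℕ := fun k => if k = 0 then n else a k
    have hbN : ∀ k, N k ≤ b k := by
      intro k
      by_cases hk : k = 0
      · simp only [b, if_pos hk]; rw [hk]; exact hn
      · simp only [b, if_neg hk, a]
        have := Finset.single_le_sum (f := N) (s := Finset.range (k + 1)) (fun _ _ => Nat.zero_le _)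
          (Finset.mem_range.2 (Nat.lt_succ_self k))
        omega
    have hbN' : ∀ k, N k ≤ b (k + 1) := by
      intro k
      simp only [b, if_neg (Nat.succ_ne_zero k), a]
      have := Finset.single_le_sum (f := N) (s := Finset.range (k + 1 + 1)) (fun _ _ => Nat.zero_le _)
        (Finset.mem_range.2 (show k < k + 1 + 1 by omega))
      omega
    have hbk : ∀ k, k ≤ b k := by
      intro k
      by_cases hk : k = 0
      · rw [hk]; exact Nat.zero_le _
      · simp only [b, if_neg hk, a]; omega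
    have hb : Tendsto b atTop atTop := tendsto_atTop_mono hbk tendsto_id
    have hg : ∀ k, gammaTwo (T (b (k + 1)) - T (b k)) ≤ ε * (1 / 2) ^ k := fun k =>
      hN k _ (hbN' k) _ (hbN k)
    have hbal : ∀ k, Bal (T (b (k + 1)) - T (b k)) ((3 / 2) * ε * (1 / 2) ^ k) := by
      intro k
      have hpos : (0 : ℝ) < ε * (1 / 2) ^ k := by positivity
      obtain ⟨c, hc1, hc2⟩ := exists_fac (fac_neg_sub (hT (b (k + 1))) (hT (b k)))
        (show gammaTwo (T (b (k + 1)) - T (b k)) < (3 / 2) * ε * (1 / 2) ^ k by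
          have := hg k
          nlinarith)
      exact hc2.bal hc1
    have hgeo : HasSum (fun k : ℕ => (3 / 2) * ε * (1 / 2 : ℝ) ^ k) (3 * ε) := by
      have := (hasSum_geometric_two).mul_left ((3 / 2) * ε)
      rwa [show (3 / 2) * ε * 2 = 3 * ε by ring] at this
    have hsum : ∀ x, HasSum (fun k => (T (b (k + 1)) - T (b k)) x) ((S - T n) x) := by
      intro x
      have hsm : Summable fun k => (T (b (k + 1)) - T (b k)) x := by
        refine Summable.of_norm_bounded (g := fun k => (3 / 2) * ε * (1 / 2 : ℝ) ^ k * ‖x‖)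
          (hgeo.summable.mul_right _) fun k => ?_
        refine ((T (b (k + 1)) - T (b k)).le_opNorm x).trans ?_
        exact mul_le_mul_of_nonneg_right (hbal k).fac.norm_le (norm_nonneg _)
      have h2 := hsm.hasSum.tendsto_sum_nat
      have h3 : ∀ m, ∑ k ∈ Finset.range m, (T (b (k + 1)) - T (b k)) x = T (b m) x - T n x := by
        intro m
        simp only [sub_apply]
        rw [Finset.sum_range_sub (fun k => T (b k) x)]
        rfl
      simp only [h3] at h2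
      have h4 : Tendsto (fun m => T (b m) x - T n x) atTop (𝓝 (S x - T n x)) := by
        have h5 : Tendsto (fun m => T (b m)) atTop (𝓝 S) := hS.comp hb
        have h6 : Tendsto (fun m => T (b m) x) atTop (𝓝 (S x)) :=
          ((ContinuousLinearMap.apply 𝕜 Y x).continuous.tendsto S).comp h5
        exact h6.sub_const _
      have h7 := tendsto_nhds_unique h2 h4
      rw [sub_apply, ← h7]
      exact hsm.hasSum
    have h8 := Bal.tsum hbal hgeo.summable (S - T n) hsum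
    rw [hgeo.tsum_eq] at h8
    exact h8.fac
  refine ⟨S, ?_, ?_⟩
  · obtain ⟨N, hN⟩ := key 1 one_pos
    obtain ⟨c, hc'⟩ := hT N
    have h2 := ((hN N le_rfl).bal (lt_add_one _)).add (hc'.bal (lt_add_one _))
    rw [sub_add_cancel] at h2
    exact ⟨_, h2.fac⟩
  · rw [Metric.tendsto_atTop]
    intro ε hε
    obtain ⟨N, hN⟩ := key (ε / 4) (by positivity)
    refine ⟨N, fun n hn => ?_⟩
    rw [Real.dist_eq, sub_zero, abs_of_nonneg (gammaTwo_nonneg _)]
    have h2 := (hN n hn).smul (-1 : 𝕜)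
    rw [neg_one_smul, neg_sub, norm_neg, norm_one, one_mul] at h2
    have h3 := gammaTwo_le h2
    linarith

/-- operators factoring through a Hilbert space, with the norm `γ₂` -/
def hilbertData (𝕜 : Type) [RCLike 𝕜] : IdealData 𝕜 where
  Mem T := ∃ c, Fac T c
  nm T := gammaTwo T

lemma hilbert_isLinear : (hilbertData 𝕜).IsLinear := by
  intro X Y _ _ _ _ _ _
  refine ⟨fun T h => fac_of_finiteRank h, ?_, ?_⟩
  · rintro S T ⟨c, hc⟩ ⟨d, hd⟩
    exact ⟨_, ((hc.bal (lt_add_one _)).add (hd.bal (lt_add_one _))).fac⟩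
  · rintro a T ⟨c, hc⟩
    exact ⟨_, hc.smul a⟩

lemma hilbert_isNorm : (hilbertData 𝕜).IsNorm := by
  intro X Y _ _ _ _ _ _
  refine ⟨fun _ _ => gammaTwo_nonneg _, fun T h h0 => ?_, fun S T hS hT => gammaTwo_add_le hS hT,
    fun a T h => gammaTwo_smul a h⟩
  have h1 := norm_le_gammaTwo h
  have h0' : gammaTwo T = 0 := h0
  rw [h0'] at h1
  exact norm_le_zero_iff.1 h1

lemma hilbert_isComplete : (hilbertData 𝕜).IsComplete := by
  intro X Y _ _ _ _ _ _ T hT hc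
  exact gammaTwo_complete T hT hc

lemma hilbert_rankOne : (hilbertData 𝕜).RankOne := by
  intro X Y _ _ _ _ _ _ f y
  exact gammaTwo_rankOne f y

lemma hilbert_isIdeal : (hilbertData 𝕜).IsIdeal := by
  intro W X Y Z _ _ _ _ _ _ _ _ _ _ _ _ R T S h
  constructor
  · obtain ⟨c, hc⟩ := h
    exact ⟨_, hc.comp R S⟩
  · exact gammaTwo_comp_le R S h

/-- The ideal `Γ₂` of the operators factoring through a Hilbert space, with the norm `γ₂`. -/
def hilbertian (𝕜 : Type) [RCLike 𝕜] : BanachIdeal 𝕜 :=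
  { hilbertData 𝕜 with
    isLinear := hilbert_isLinear
    isNorm := hilbert_isNorm
    isComplete := hilbert_isComplete
    rankOne := hilbert_rankOne
    isIdeal := hilbert_isIdeal }

/-- Every Banach space satisfies `(P_1)` for `Γ₂`. -/
theorem condP_hilbertian (X : Type) [NormedAddCommGroup X] [NormedSpace 𝕜 X] [CompleteSpace X] :
    CondP (hilbertian 𝕜) 1 X := by
  refine condP_of_approx _ 1 X fun Y _ _ _ T hT F ε hε => ?_
  have hT' : ∃ c, Fac T c := hT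
  obtain ⟨c, hc, P, hP1, hP2⟩ := exists_fac hT' (show gammaTwo T < gammaTwo T + ε by linarith)
  let V : Submodule 𝕜 P.H := Submodule.span 𝕜 (P.A '' (F : Set X))
  have hfd : FiniteDimensional 𝕜 V :=
    FiniteDimensional.span_of_finite 𝕜 ((Finset.finite_toSet F).image _)
  let Q : P.H →L[𝕜] P.H := V.starProjection
  have hQ : ‖Q‖ ≤ 1 := V.starProjection_norm_le
  have hQf : ∀ x ∈ F, Q (P.A x) = P.A x := fun x hx =>
    Submodule.starProjection_eq_self_iff.2 (Submodule.subset_span ⟨x, hx, rfl⟩)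
  have hQr : FiniteRank Q := by
    have hle : LinearMap.range (Q : P.H →ₗ[𝕜] P.H) ≤ V := by
      rintro _ ⟨x, rfl⟩
      exact V.starProjection_apply_mem x
    exact Submodule.finiteDimensional_of_le hle
  refine ⟨P.B ∘L Q ∘L P.A, FiniteRank.comp P.B P.A hQr, fun x hx => ?_, ?_⟩
  · have : (P.B ∘L Q ∘L P.A) x = T x := by
      rw [hP1, ContinuousLinearMap.comp_apply, ContinuousLinearMap.comp_apply, hQf x hx]
      rfl
    rw [this, sub_self, norm_zero]
    exact hε.le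
  · have h1 : Fac (P.B ∘L Q ∘L P.A) c := by
      refine ⟨⟨P.H, Q ∘L P.A, P.B⟩, rfl, ?_⟩
      refine le_trans ?_ hP2
      refine mul_le_mul_of_nonneg_right ?_ (norm_nonneg _)
      refine (ContinuousLinearMap.opNorm_comp_le _ _).trans ?_
      exact mul_le_of_le_one_left (norm_nonneg _) hQ
    have h2 := gammaTwo_le h1
    have h3 : (hilbertian 𝕜).nm T = gammaTwo T := rfl
    have h4 : (hilbertian 𝕜).nm (P.B ∘L Q ∘L P.A) = gammaTwo (P.B ∘L Q ∘L P.A) := rfl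
    rw [h3, h4]
    linarith

end Pool.Agent.H812R2.AP
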