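import Pool.Agent.H812R2.AP.NoAP

set_option autoImplicit false
set_option linter.unusedSectionVars false

/-! # Banach operator ideals and the approximation conditions -/

open Filter Topology

noncomputable section

namespace Pool.Agent.H812R2.AP

/-- finite rank operators -/
def FiniteRank {𝕜 : Type} [RCLike 𝕜] {X Y : Type} [NormedAddCommGroup X] [NormedSpace 𝕜 X]
    [NormedAddCommGroup Y] [NormedSpace 𝕜 Y] (T : X →L[𝕜] Y) : Prop :=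
  FiniteDimensional 𝕜 (LinearMap.range (T : X →ₗ[𝕜] Y))

/-- The data of an operator ideal on the class of Banach spaces over `𝕜`: `Mem T` says that `T`
belongs to the ideal, `nm T` is its ideal norm. -/
structure IdealData (𝕜 : Type) [RCLike 𝕜] where
  Mem : ∀ {X Y : Type} [NormedAddCommGroup X] [NormedSpace 𝕜 X] [CompleteSpace X]
    [NormedAddCommGroup Y] [NormedSpace 𝕜 Y] [CompleteSpace Y], (X →L[𝕜] Y) → Prop
  nm : ∀ {X Y : Type} [NormedAddCommGroup X] [NormedSpace 𝕜 X] [CompleteSpace X]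
    [NormedAddCommGroup Y] [NormedSpace 𝕜 Y] [CompleteSpace Y], (X →L[𝕜] Y) → ℝ

namespace IdealData

variable {𝕜 : Type} [RCLike 𝕜] (D : IdealData 𝕜)

/-- each `𝒜(X, Y)` is a linear subspace containing the finite rank operators -/
def IsLinear : Prop :=
  ∀ (X Y : Type) [NormedAddCommGroup X] [NormedSpace 𝕜 X] [CompleteSpace X]
    [NormedAddCommGroup Y] [NormedSpace 𝕜 Y] [CompleteSpace Y],
    (∀ T : X →L[𝕜] Y, FiniteRank T → D.Mem T) ∧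
    (∀ S T : X →L[𝕜] Y, D.Mem S → D.Mem T → D.Mem (S + T)) ∧
    ∀ (c : 𝕜) (T : X →L[𝕜] Y), D.Mem T → D.Mem (c • T)

/-- `nm` is a norm on each `𝒜(X, Y)` -/
def IsNorm : Prop :=
  ∀ (X Y : Type) [NormedAddCommGroup X] [NormedSpace 𝕜 X] [CompleteSpace X]
    [NormedAddCommGroup Y] [NormedSpace 𝕜 Y] [CompleteSpace Y],
    (∀ T : X →L[𝕜] Y, D.Mem T → 0 ≤ D.nm T) ∧
    (∀ T : X →L[𝕜] Y, D.Mem T → D.nm T = 0 → T = 0) ∧
    (∀ S T : X →L[𝕜] Y, D.Mem S → D.Mem T → D.nm (S + T) ≤ D.nm S + D.nm T) ∧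
    ∀ (c : 𝕜) (T : X →L[𝕜] Y), D.Mem T → D.nm (c • T) = ‖c‖ * D.nm T

/-- each `𝒜(X, Y)` is complete -/
def IsComplete : Prop :=
  ∀ (X Y : Type) [NormedAddCommGroup X] [NormedSpace 𝕜 X] [CompleteSpace X]
    [NormedAddCommGroup Y] [NormedSpace 𝕜 Y] [CompleteSpace Y] (T : ℕ → (X →L[𝕜] Y)),
    (∀ n, D.Mem (T n)) → (∀ ε > 0, ∃ N, ∀ m ≥ N, ∀ n ≥ N, D.nm (T m - T n) ≤ ε) →
    ∃ S : X →L[𝕜] Y, D.Mem S ∧ Tendsto (fun n => D.nm (T n - S)) atTop (𝓝 0)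

/-- the norm of the operators of rank one -/
def RankOne : Prop :=
  ∀ (X Y : Type) [NormedAddCommGroup X] [NormedSpace 𝕜 X] [CompleteSpace X]
    [NormedAddCommGroup Y] [NormedSpace 𝕜 Y] [CompleteSpace Y] (f : X →L[𝕜] 𝕜) (y : Y),
    D.nm (f.smulRight y) = ‖f‖ * ‖y‖

/-- `R T S ∈ 𝒜(W, Z)` with norm at most `‖R‖ ‖T‖_𝒜 ‖S‖` for `T ∈ 𝒜(X, Y)` -/
def IsIdeal : Prop :=
  ∀ (W X Y Z : Type) [NormedAddCommGroup W] [NormedSpace 𝕜 W] [CompleteSpace W]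
    [NormedAddCommGroup X] [NormedSpace 𝕜 X] [CompleteSpace X]
    [NormedAddCommGroup Y] [NormedSpace 𝕜 Y] [CompleteSpace Y]
    [NormedAddCommGroup Z] [NormedSpace 𝕜 Z] [CompleteSpace Z]
    (R : Y →L[𝕜] Z) (T : X →L[𝕜] Y) (S : W →L[𝕜] X), D.Mem T →
    D.Mem (R ∘L T ∘L S) ∧ D.nm (R ∘L T ∘L S) ≤ ‖R‖ * D.nm T * ‖S‖

end IdealData

/-- A Banach operator ideal on the class of Banach spaces over `𝕜`. -/
structure BanachIdeal (𝕜 : Type) [RCLike 𝕜] extends IdealData 𝕜 where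
  isLinear : toIdealData.IsLinear
  isNorm : toIdealData.IsNorm
  isComplete : toIdealData.IsComplete
  rankOne : toIdealData.RankOne
  isIdeal : toIdealData.IsIdeal

namespace BanachIdeal

variable {𝕜 : Type} [RCLike 𝕜] (𝒜 : BanachIdeal 𝕜)
variable {W X Y Z : Type} [NormedAddCommGroup W] [NormedSpace 𝕜 W] [CompleteSpace W]
    [NormedAddCommGroup X] [NormedSpace 𝕜 X] [CompleteSpace X]
    [NormedAddCommGroup Y] [NormedSpace 𝕜 Y] [CompleteSpace Y]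
    [NormedAddCommGroup Z] [NormedSpace 𝕜 Z] [CompleteSpace Z]

lemma mem_of_finiteRank {T : X →L[𝕜] Y} (h : FiniteRank T) : 𝒜.Mem T := (𝒜.isLinear X Y).1 T h
lemma mem_add {S T : X →L[𝕜] Y} (hS : 𝒜.Mem S) (hT : 𝒜.Mem T) : 𝒜.Mem (S + T) :=
  (𝒜.isLinear X Y).2.1 S T hS hT
lemma mem_smul {T : X →L[𝕜] Y} (c : 𝕜) (hT : 𝒜.Mem T) : 𝒜.Mem (c • T) :=
  (𝒜.isLinear X Y).2.2 c T hT
lemma nm_nonneg {T : X →L[𝕜] Y} (hT : 𝒜.Mem T) : 0 ≤ 𝒜.nm T := (𝒜.isNorm X Y).1 T hT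
lemma nm_add_le {S T : X →L[𝕜] Y} (hS : 𝒜.Mem S) (hT : 𝒜.Mem T) :
    𝒜.nm (S + T) ≤ 𝒜.nm S + 𝒜.nm T := (𝒜.isNorm X Y).2.2.1 S T hS hT
lemma nm_rankOne (f : X →L[𝕜] 𝕜) (y : Y) : 𝒜.nm (f.smulRight y) = ‖f‖ * ‖y‖ := 𝒜.rankOne X Y f y
lemma nm_comp_le (R : Y →L[𝕜] Z) {T : X →L[𝕜] Y} (S : W →L[𝕜] X) (hT : 𝒜.Mem T) :
    𝒜.nm (R ∘L T ∘L S) ≤ ‖R‖ * 𝒜.nm T * ‖S‖ := (𝒜.isIdeal W X Y Z R T S hT).2

end BanachIdeal

variable {𝕜 : Type} [RCLike 𝕜]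

/-- The `lam`-bounded approximation property of `X` for the ideal `𝒜`: for every Banach space `Y`
and every `T ∈ 𝒜(X, Y)` there is a net `(S α)` of finite rank operators on `X` converging to the
identity uniformly on compact sets with `limsup nm (T ∘ S α) ≤ lam * nm T`. -/
def HasBAP (𝒜 : BanachIdeal 𝕜) (lam : ℝ) (X : Type) [NormedAddCommGroup X] [NormedSpace 𝕜 X]
    [CompleteSpace X] : Prop :=
  ∀ (Y : Type) [NormedAddCommGroup Y] [NormedSpace 𝕜 Y] [CompleteSpace Y] (T : X →L[𝕜] Y),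
    𝒜.Mem T → ∃ (ι : Type) (_ : Preorder ι) (_ : IsDirectedOrder ι) (_ : Nonempty ι)
      (S : ι → (X →L[𝕜] X)), (∀ α, FiniteRank (S α)) ∧
      (∀ K : Set X, IsCompact K → TendstoUniformlyOn (fun α x => S α x) (fun x => x) atTop K) ∧
      ∀ ε > 0, ∀ᶠ α in atTop, 𝒜.nm (T ∘L S α) ≤ lam * 𝒜.nm T + ε

/-- Condition `(P_lam)` for the ideal `𝒜`: for every Banach space `Y` and every `T ∈ 𝒜(X, Y)` there
is a net `(S α)` of finite rank operators from `X` to `Y` converging to `T` pointwise with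
`limsup nm (S α) ≤ lam * nm T`. -/
def CondP (𝒜 : BanachIdeal 𝕜) (lam : ℝ) (X : Type) [NormedAddCommGroup X] [NormedSpace 𝕜 X]
    [CompleteSpace X] : Prop :=
  ∀ (Y : Type) [NormedAddCommGroup Y] [NormedSpace 𝕜 Y] [CompleteSpace Y] (T : X →L[𝕜] Y),
    𝒜.Mem T → ∃ (ι : Type) (_ : Preorder ι) (_ : IsDirectedOrder ι) (_ : Nonempty ι)
      (S : ι → (X →L[𝕜] Y)), (∀ α, FiniteRank (S α)) ∧
      (∀ x : X, Tendsto (fun α => S α x) atTop (𝓝 (T x))) ∧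
      ∀ ε > 0, ∀ᶠ α in atTop, 𝒜.nm (S α) ≤ lam * 𝒜.nm T + ε

/-- Davie's space has the `lam`-BAP for no ideal and no `lam`. -/
theorem not_hasBAP (s : Sys) (𝒜 : BanachIdeal 𝕜) (lam : ℝ) : ¬ HasBAP 𝒜 lam (s.XT 𝕜) := by
  intro h
  have h0 : FiniteRank (0 : s.XT 𝕜 →L[𝕜] s.XT 𝕜) := by
    unfold FiniteRank
    rw [ContinuousLinearMap.toLinearMap_zero, LinearMap.range_zero]
    infer_instance
  obtain ⟨ι, i1, i2, i3, S, hS1, hS2, -⟩ := h (s.XT 𝕜) 0 (𝒜.mem_of_finiteRank h0)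
  have h1 := hS2 _ (s.isCompact_cpt 𝕜)
  rw [Metric.tendstoUniformlyOn_iff] at h1
  obtain ⟨α, hα⟩ := (h1 (1 / 6) (by norm_num)).exists
  obtain ⟨x, hx, hx2⟩ := s.far (S α) (hS1 α)
  have h2 := hα x hx
  rw [dist_comm, dist_eq_norm] at h2
  linarith

/-- nets from approximations -/
lemma condP_of_approx (𝒜 : BanachIdeal 𝕜) (lam : ℝ) (X : Type) [NormedAddCommGroup X] [NormedSpace 𝕜 X]
    [CompleteSpace X] (h : ∀ (Y : Type) [NormedAddCommGroup Y] [NormedSpace 𝕜 Y] [CompleteSpace Y]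
      (T : X →L[𝕜] Y), 𝒜.Mem T → ∀ (F : Finset X) (ε : ℝ), 0 < ε → ∃ S : X →L[𝕜] Y, FiniteRank S ∧
        (∀ x ∈ F, ‖S x - T x‖ ≤ ε) ∧ 𝒜.nm S ≤ lam * 𝒜.nm T + ε) : CondP 𝒜 lam X := by
  classical
  intro Y _ _ _ T hT
  have hpos : ∀ n : ℕ, (0 : ℝ) < 1 / ((n : ℝ) + 1) := fun n => by positivity
  choose S hS1 hS2 hS3 using fun p : Finset X × ℕ => h Y T hT p.1 (1 / ((p.2 : ℝ) + 1)) (hpos _)
  refine ⟨Finset X × ℕ, inferInstance, inferInstance, inferInstance, S, hS1, ?_, ?_⟩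
  · intro x
    rw [Metric.tendsto_nhds]
    intro ε hε
    obtain ⟨n, hn⟩ := exists_nat_one_div_lt hε
    filter_upwards [eventually_ge_atTop (({x}, n) : Finset X × ℕ)] with p hp
    rw [dist_eq_norm]
    refine (hS2 p x (hp.1 (Finset.mem_singleton_self x))).trans_lt (lt_of_le_of_lt ?_ hn)
    have h1 : (n : ℝ) ≤ p.2 := by exact_mod_cast hp.2
    exact one_div_le_one_div_of_le (by positivity) (by linarith)
  · intro ε hε
    obtain ⟨n, hn⟩ := exists_nat_one_div_lt hε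
    filter_upwards [eventually_ge_atTop ((∅, n) : Finset X × ℕ)] with p hp
    have h1 : (n : ℝ) ≤ p.2 := by exact_mod_cast hp.2
    have h2 : 1 / ((p.2 : ℝ) + 1) ≤ 1 / ((n : ℝ) + 1) :=
      one_div_le_one_div_of_le (by positivity) (by linarith)
    linarith [hS3 p]

/-- the ideal norm dominates the operator norm -/
lemma norm_le_nm (𝒜 : BanachIdeal 𝕜) {X Y : Type} [NormedAddCommGroup X] [NormedSpace 𝕜 X]
    [CompleteSpace X] [NormedAddCommGroup Y] [NormedSpace 𝕜 Y] [CompleteSpace Y] {T : X →L[𝕜] Y}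
    (hT : 𝒜.Mem T) (x : X) : ‖T x‖ ≤ 𝒜.nm T * ‖x‖ := by
  obtain ⟨g, hg1, hg2⟩ := exists_dual_vector'' 𝕜 (T x)
  have h1 := 𝒜.nm_comp_le g ((ContinuousLinearMap.id 𝕜 𝕜).smulRight x) hT
  have h2 : g ∘L T ∘L ((ContinuousLinearMap.id 𝕜 𝕜).smulRight x) =
      (ContinuousLinearMap.id 𝕜 𝕜).smulRight (g (T x)) := by
    ext
    simp
  rw [h2, 𝒜.nm_rankOne, ContinuousLinearMap.norm_smulRight_apply, hg2] at h1
  have h3 : ‖ContinuousLinearMap.id 𝕜 𝕜‖ = 1 := ContinuousLinearMap.norm_id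
  rw [h3] at h1
  simp only [one_mul] at h1
  have h4 : ‖((‖T x‖ : ℝ) : 𝕜)‖ = ‖T x‖ := by
    rw [RCLike.norm_ofReal, abs_of_nonneg (norm_nonneg _)]
  rw [h4] at h1
  refine h1.trans ?_
  have h5 : 0 ≤ 𝒜.nm T := 𝒜.nm_nonneg hT
  nlinarith [mul_nonneg h5 (norm_nonneg x), mul_le_mul_of_nonneg_right hg1 (mul_nonneg h5 (norm_nonneg x))]

/-- finite rank operators are dense in the ideal -/
def FiniteRankDense (𝒜 : BanachIdeal 𝕜) : Prop :=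
  ∀ {X Y : Type} [NormedAddCommGroup X] [NormedSpace 𝕜 X] [CompleteSpace X]
    [NormedAddCommGroup Y] [NormedSpace 𝕜 Y] [CompleteSpace Y] (T : X →L[𝕜] Y), 𝒜.Mem T →
    ∀ ε > 0, ∃ S : X →L[𝕜] Y, FiniteRank S ∧ 𝒜.nm (S - T) ≤ ε

lemma mem_sub (𝒜 : BanachIdeal 𝕜) {X Y : Type} [NormedAddCommGroup X] [NormedSpace 𝕜 X]
    [CompleteSpace X] [NormedAddCommGroup Y] [NormedSpace 𝕜 Y] [CompleteSpace Y] {S T : X →L[𝕜] Y}
    (hS : 𝒜.Mem S) (hT : 𝒜.Mem T) : 𝒜.Mem (S - T) := by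
  have h := 𝒜.mem_add hS (𝒜.mem_smul (-1 : 𝕜) hT)
  rwa [neg_one_smul, ← sub_eq_add_neg] at h

/-- Every Banach space satisfies `(P_1)` for an ideal in which the finite rank operators are
dense. -/
theorem condP_of_dense (𝒜 : BanachIdeal 𝕜) (hd : FiniteRankDense 𝒜) (X : Type) [NormedAddCommGroup X]
    [NormedSpace 𝕜 X] [CompleteSpace X] : CondP 𝒜 1 X := by
  refine condP_of_approx 𝒜 1 X fun Y _ _ _ T hT F ε hε => ?_
  set C : ℝ := ∑ x ∈ F, ‖x‖ with hC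
  have hC0 : 0 ≤ C := Finset.sum_nonneg fun _ _ => norm_nonneg _
  obtain ⟨S, hS1, hS2⟩ := hd T hT (ε / (C + 1)) (by positivity)
  have hmem := mem_sub 𝒜 (𝒜.mem_of_finiteRank hS1) hT
  have hle : ε / (C + 1) ≤ ε := div_le_self hε.le (by linarith)
  refine ⟨S, hS1, fun x hx => ?_, ?_⟩
  · have h1 := norm_le_nm 𝒜 hmem x
    rw [sub_apply] at h1
    have h2 : ‖x‖ ≤ C := Finset.single_le_sum (f := fun x => ‖x‖) (fun _ _ => norm_nonneg _) hx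
    refine h1.trans ?_
    calc 𝒜.nm (S - T) * ‖x‖ ≤ (ε / (C + 1)) * (C + 1) :=
          mul_le_mul hS2 (by linarith) (norm_nonneg _) (by positivity)
      _ = ε := by field_simp
  · have h1 := 𝒜.nm_add_le hmem hT
    rw [sub_add_cancel] at h1
    linarith

end Pool.Agent.H812R2.AP
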