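import Pool.Agent.H812R2.AP.Davie

set_option autoImplicit false
set_option linter.unusedSectionVars false

/-! # Davie's space fails the approximation property -/

open Filter Topology Finset
open scoped BoundedContinuousFunction

noncomputable section

namespace Pool.Agent.H812R2.AP

open Pool.Agent.BAPp

variable {𝕜 : Type} [RCLike 𝕜] (s : Sys)

namespace Sys

/-- trace-like functionals -/
def beta (k : ℕ) (T : s.XT 𝕜 →L[𝕜] s.XT 𝕜) : 𝕜 :=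
  (1 / 2 ^ k : 𝕜) * ∑ j ∈ range (2 ^ k), s.al k j (s.val 𝕜 (T (s.EX 𝕜 k j)))

lemma beta_add (k : ℕ) (T S : s.XT 𝕜 →L[𝕜] s.XT 𝕜) : s.beta k (T + S) = s.beta k T + s.beta k S := by
  unfold beta
  rw [← mul_add, ← Finset.sum_add_distrib]
  congr 1
  refine Finset.sum_congr rfl fun j _ => ?_
  rw [add_apply, map_add, al_add]

lemma beta_one (k : ℕ) : s.beta k (1 : s.XT 𝕜 →L[𝕜] s.XT 𝕜) = 1 := by
  unfold beta
  have h : ∀ j ∈ range (2 ^ k), s.al k j (s.val 𝕜 ((1 : s.XT 𝕜 →L[𝕜] s.XT 𝕜) (s.EX 𝕜 k j))) = 1 := by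
    intro j hj
    rw [one_apply_eq_self, s.EX_coe 𝕜 (mem_range.1 hj),
      s.al_E _ _ _ _ (mem_range.1 hj) (mem_range.1 hj), if_pos ⟨rfl, rfl⟩]
  rw [Finset.sum_congr rfl h, Finset.sum_const, card_range, nsmul_eq_mul, mul_one, one_div]
  push_cast
  rw [inv_mul_cancel₀]
  exact pow_ne_zero _ two_ne_zero

lemma beta_succ (k : ℕ) (T : s.XT 𝕜 →L[𝕜] s.XT 𝕜) : s.beta (k + 1) T - s.beta k T =
    (1 / 2 ^ (k + 2) : 𝕜) * ∑ g ∈ range (2 ^ (k + 2)), (s.val 𝕜 (T (s.Phi 𝕜 k g))) (k, g) := by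
  have h1 : ∀ g, (s.val 𝕜 (T (s.Phi 𝕜 k g))) (k, g) =
      (1 / 2 ^ (k + 1) : 𝕜) * (∑ j ∈ range (2 ^ (k + 1)),
        ((s.tt k j g : ℝ) : 𝕜) * (s.val 𝕜 (T (s.EX 𝕜 (k + 1) j))) (k, g)) -
      (1 / 2 ^ k : 𝕜) * (∑ j ∈ range (2 ^ k),
        ((s.sg k j g : ℝ) : 𝕜) * (s.val 𝕜 (T (s.EX 𝕜 k j))) (k, g)) := by
    intro g
    unfold Phi
    rw [map_sub, map_smul, map_smul, map_sum, map_sum]
    simp only [map_smul]
    rw [map_sub, map_smul, map_smul, map_sum, map_sum]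
    simp only [map_smul]
    rw [BoundedContinuousFunction.sub_apply,
      BoundedContinuousFunction.smul_apply, BoundedContinuousFunction.smul_apply,
      BoundedContinuousFunction.sum_apply, BoundedContinuousFunction.sum_apply]
    rfl
  have h2 : s.beta (k + 1) T = (1 / 2 ^ (k + 1) : 𝕜) * ∑ j ∈ range (2 ^ (k + 1)),
      s.al' k j (s.val 𝕜 (T (s.EX 𝕜 (k + 1) j))) := by
    unfold beta
    congr 1
    refine Finset.sum_congr rfl fun j hj => ?_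
    exact s.al_eq k j (mem_range.1 hj) (s.val_mem 𝕜 _)
  rw [h2]
  unfold beta al al'
  simp only [h1]
  rw [Finset.sum_sub_distrib, mul_sub]
  congr 1
  · rw [← Finset.mul_sum, ← Finset.mul_sum, mul_left_comm]
    congr 2
    rw [Finset.sum_comm]
  · rw [← Finset.mul_sum, ← Finset.mul_sum, mul_left_comm]
    congr 2
    rw [Finset.sum_comm]

lemma norm_beta_succ (k : ℕ) (T : s.XT 𝕜 →L[𝕜] s.XT 𝕜) {M : ℝ}
    (hM : ∀ g < 2 ^ (k + 2), ‖T (s.Phi 𝕜 k g)‖ ≤ M) : ‖s.beta (k + 1) T - s.beta k T‖ ≤ M := by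
  rw [beta_succ, norm_mul]
  have h1 : ‖(1 / 2 ^ (k + 2) : 𝕜)‖ = 1 / 2 ^ (k + 2) := by simp
  rw [h1]
  have h2 : ‖∑ g ∈ range (2 ^ (k + 2)), (s.val 𝕜 (T (s.Phi 𝕜 k g))) (k, g)‖ ≤ 2 ^ (k + 2) * M := by
    refine (norm_sum_le _ _).trans ?_
    have h3 : ∑ g ∈ range (2 ^ (k + 2)), ‖(s.val 𝕜 (T (s.Phi 𝕜 k g))) (k, g)‖ ≤
        ∑ g ∈ range (2 ^ (k + 2)), M := by
      refine Finset.sum_le_sum fun g hg => ?_
      exact ((s.val 𝕜 (T (s.Phi 𝕜 k g))).norm_coe_le_norm _).trans (hM g (mem_range.1 hg))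
    refine h3.trans (le_of_eq ?_)
    rw [Finset.sum_const, card_range, nsmul_eq_mul]
    push_cast
    ring
  calc (1 / 2 ^ (k + 2) : ℝ) * ‖∑ g ∈ range (2 ^ (k + 2)), (s.val 𝕜 (T (s.Phi 𝕜 k g))) (k, g)‖
      ≤ (1 / 2 ^ (k + 2)) * (2 ^ (k + 2) * M) := by gcongr
    _ = M := by field_simp

/-- index set of the compact set -/
abbrev Idx := Σ k : ℕ, Fin (2 ^ (k + 2))

variable (𝕜)

/-- scaled vectors -/
def psi (p : Idx) : s.XT 𝕜 := ((4 / 3 : ℝ) ^ p.1 : 𝕜) • s.Phi 𝕜 p.1 p.2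

lemma norm_psi_le (p : Idx) : ‖s.psi 𝕜 p‖ ≤ (4 / 3 : ℝ) ^ p.1 * cc p.1 := by
  unfold psi
  rw [norm_smul]
  have h : ‖(((4 / 3 : ℝ) : 𝕜) ^ p.1)‖ = (4 / 3 : ℝ) ^ p.1 := by
    rw [norm_pow, RCLike.norm_ofReal]; norm_num
  have h' : ‖(((4 / 3 : ℝ)) ^ p.1 : 𝕜)‖ = (4 / 3 : ℝ) ^ p.1 := h
  rw [h']
  exact mul_le_mul_of_nonneg_left (s.norm_Phi_le 𝕜 _ _ p.2.2) (by positivity)

lemma tendsto_cc : Tendsto (fun k : ℕ => (4 / 3 : ℝ) ^ k * cc k) atTop (𝓝 0) := by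
  have h2 : Real.sqrt 2 ^ 2 = 2 := Real.sq_sqrt (by norm_num)
  have h3 : 0 ≤ Real.sqrt 2 := Real.sqrt_nonneg _
  have hs : Real.sqrt 2 < 3 / 2 := by
    rw [Real.sqrt_lt' (by norm_num)]; norm_num
  set r : ℝ := 2 / 3 * Real.sqrt 2 with hr
  have hr0 : 0 < r := by
    have : 0 < Real.sqrt 2 := Real.sqrt_pos.2 (by norm_num)
    positivity
  have hr1 : r < 1 := by rw [hr]; linarith
  have h4 : ∀ k : ℕ, (4 / 3 : ℝ) ^ k * cc k = 20 * ((k : ℝ) * r ^ k) + 20 * r ^ k := by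
    intro k
    unfold cc
    have e1 : Real.sqrt (2 ^ k) = Real.sqrt 2 ^ k := by
      rw [← Real.sqrt_sq (pow_nonneg h3 k), ← pow_mul, mul_comm k 2, pow_mul, h2]
    rw [e1, hr, mul_pow, div_pow, div_pow]
    have e2 : (4 : ℝ) ^ k = 2 ^ k * 2 ^ k := by rw [← mul_pow]; norm_num
    rw [e2]
    field_simp
  simp_rw [h4]
  have h5 := (tendsto_self_mul_const_pow_of_lt_one hr0.le hr1).const_mul 20
  have h6 := (tendsto_pow_atTop_nhds_zero_of_lt_one hr0.le hr1).const_mul 20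
  have h7 := h5.add h6
  simpa using h7

lemma tendsto_psi : Tendsto (s.psi 𝕜) cofinite (𝓝 0) := by
  rw [tendsto_zero_iff_norm_tendsto_zero]
  have h1 := tendsto_cc
  refine squeeze_zero (fun _ => norm_nonneg _) (s.norm_psi_le 𝕜) ?_
  have h2 : Tendsto (fun p : Idx => p.1) cofinite atTop := by
    rw [← Nat.cofinite_eq_atTop]
    refine Filter.tendsto_def.2 fun t ht => ?_
    rw [Filter.mem_cofinite] at ht ⊢
    have h3 : ((fun p : Idx => p.1) ⁻¹' t)ᶜ = Sigma.fst ⁻¹' tᶜ := rfl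
    rw [h3]
    have h4 : (Sigma.fst ⁻¹' tᶜ : Set Idx) = ⋃ k ∈ tᶜ, Set.range (fun i => (⟨k, i⟩ : Idx)) := by
      ext ⟨k, i⟩
      simp only [Set.mem_preimage, Set.mem_compl_iff, Set.mem_iUnion, Set.mem_range, exists_prop]
      constructor
      · intro h; exact ⟨k, h, i, rfl⟩
      · rintro ⟨k', h, i', h'⟩
        cases h'
        exact h
    rw [h4]
    exact ht.biUnion fun k _ => Set.finite_range _
  exact h1.comp h2

/-- the compact set -/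
def cpt : Set (s.XT 𝕜) := insert (s.EX 𝕜 0 0) (insert 0 (Set.range (s.psi 𝕜)))

lemma isCompact_cpt : IsCompact (s.cpt 𝕜) :=
  (Filter.Tendsto.isCompact_insert_range_of_cofinite (s.tendsto_psi 𝕜)).insert _

variable {𝕜}

lemma norm_beta_le (T : s.XT 𝕜 →L[𝕜] s.XT 𝕜) {δ : ℝ} (hδ : ∀ x ∈ s.cpt 𝕜, ‖T x‖ ≤ δ) (k : ℕ) :
    ‖s.beta k T‖ ≤ 5 * δ := by
  have hδ0 : 0 ≤ δ := (norm_nonneg _).trans (hδ 0 (Or.inr (Or.inl rfl)))
  have hstep : ∀ k, ‖s.beta (k + 1) T - s.beta k T‖ ≤ (3 / 4 : ℝ) ^ k * δ := by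
    intro k
    refine s.norm_beta_succ k T fun g hg => ?_
    have h1 := hδ (s.psi 𝕜 ⟨k, ⟨g, hg⟩⟩) (Or.inr (Or.inr ⟨_, rfl⟩))
    unfold psi at h1
    rw [map_smul, norm_smul] at h1
    have h : ‖(((4 / 3 : ℝ)) ^ k : 𝕜)‖ = (4 / 3 : ℝ) ^ k := by
      rw [norm_pow, RCLike.norm_ofReal]; norm_num
    dsimp only at h1
    rw [h] at h1
    have h2 : (3 / 4 : ℝ) ^ k * ((4 / 3 : ℝ) ^ k * ‖T (s.Phi 𝕜 k g)‖) ≤ (3 / 4 : ℝ) ^ k * δ :=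
      mul_le_mul_of_nonneg_left h1 (by positivity)
    rw [← mul_assoc, ← mul_pow] at h2
    norm_num at h2
    exact h2
  have h0 : ‖s.beta 0 T‖ ≤ δ := by
    unfold beta
    rw [pow_zero, pow_zero, div_one, one_mul, Finset.sum_range_one]
    refine s.norm_al_le _ _ _ fun g => ?_
    refine ((s.val 𝕜 (T (s.EX 𝕜 0 0))).norm_coe_le_norm _).trans ?_
    exact hδ _ (Or.inl rfl)
  have hk : ∀ k, ‖s.beta k T‖ ≤ δ + (4 - 4 * (3 / 4 : ℝ) ^ k) * δ := by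
    intro k
    induction k with
    | zero => simpa using h0
    | succ k ih =>
      have h1 := norm_add_le (s.beta (k + 1) T - s.beta k T) (s.beta k T)
      rw [sub_add_cancel] at h1
      have h2 := hstep k
      rw [pow_succ]
      nlinarith
  refine (hk k).trans ?_
  have : (0 : ℝ) ≤ (3 / 4 : ℝ) ^ k * δ := by positivity
  nlinarith

lemma tendsto_beta (S : s.XT 𝕜 →L[𝕜] s.XT 𝕜)
    (hS : FiniteDimensional 𝕜 (LinearMap.range (S : s.XT 𝕜 →ₗ[𝕜] s.XT 𝕜))) :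
    Tendsto (fun k => s.beta k S) atTop (𝓝 0) := by
  set V := LinearMap.range (S : s.XT 𝕜 →ₗ[𝕜] s.XT 𝕜) with hV
  -- uniform smallness on `V`
  have hsm : ∀ ε > 0, ∃ K, ∀ k ≥ K, ∀ g, ∀ v : V, ‖(s.val 𝕜 (v : s.XT 𝕜)) (k, g)‖ ≤ ε * ‖v‖ := by
    intro ε hε
    let b := Module.finBasis 𝕜 V
    let f : Fin (Module.finrank 𝕜 V) → (V →L[𝕜] 𝕜) := fun i => LinearMap.toContinuousLinearMap (b.coord i)
    have hv : ∀ v : V, v = ∑ i, f i v • b i := fun v => (b.sum_repr v).symm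
    set C : ℝ := ∑ i, ‖f i‖ with hC
    have hC0 : 0 ≤ C := Finset.sum_nonneg fun _ _ => norm_nonneg _
    have hK : ∀ i, ∃ K, ∀ k ≥ K, ∀ g, ‖(s.val 𝕜 (b i : s.XT 𝕜)) (k, g)‖ ≤ ε / (C + 1) := fun i =>
      s.small (s.val_mem 𝕜 _) _ (by positivity)
    choose K hK using hK
    refine ⟨∑ i, K i, fun k hk g v => ?_⟩
    have h1 : (s.val 𝕜 (v : s.XT 𝕜)) (k, g) = ∑ i, f i v * (s.val 𝕜 (b i : s.XT 𝕜)) (k, g) := by
      conv_lhs => rw [hv v]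
      rw [Submodule.coe_sum, map_sum, BoundedContinuousFunction.sum_apply]
      refine Finset.sum_congr rfl fun i _ => ?_
      rw [Submodule.coe_smul, map_smul, BoundedContinuousFunction.smul_apply, smul_eq_mul]
    rw [h1]
    refine (norm_sum_le _ _).trans ?_
    have h2 : ∑ i, ‖f i v * (s.val 𝕜 (b i : s.XT 𝕜)) (k, g)‖ ≤ ∑ i, ‖f i‖ * (ε / (C + 1) * ‖v‖) := by
      refine Finset.sum_le_sum fun i _ => ?_
      rw [norm_mul]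
      have h3 : K i ≤ k := (Finset.single_le_sum (f := K) (fun _ _ => Nat.zero_le _) (Finset.mem_univ i)).trans hk
      calc ‖f i v‖ * ‖(s.val 𝕜 (b i : s.XT 𝕜)) (k, g)‖ ≤ (‖f i‖ * ‖v‖) * (ε / (C + 1)) :=
            mul_le_mul ((f i).le_opNorm v) (hK i k h3 g) (norm_nonneg _) (by positivity)
        _ = _ := by ring
    refine h2.trans ?_
    rw [← Finset.sum_mul, ← hC]
    have h4 : C * (ε / (C + 1)) ≤ ε := by
      rw [mul_div_assoc', div_le_iff₀ (by positivity)]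
      nlinarith
    calc C * (ε / (C + 1) * ‖v‖) = (C * (ε / (C + 1))) * ‖v‖ := by ring
      _ ≤ ε * ‖v‖ := mul_le_mul_of_nonneg_right h4 (norm_nonneg _)
  rw [Metric.tendsto_atTop]
  intro ε hε
  obtain ⟨K, hK⟩ := hsm (ε / (2 * (‖S‖ + 1))) (by positivity)
  refine ⟨K, fun k hk => ?_⟩
  rw [dist_zero_right]
  have h1 : ∀ j ∈ range (2 ^ k), ‖s.al k j (s.val 𝕜 (S (s.EX 𝕜 k j)))‖ ≤ ε / 2 := by
    intro j hj
    refine s.norm_al_le _ _ _ fun g => ?_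
    have h2 := hK k hk g ⟨S (s.EX 𝕜 k j), ⟨_, rfl⟩⟩
    refine h2.trans ?_
    have h3 : ‖(⟨S (s.EX 𝕜 k j), ⟨_, rfl⟩⟩ : V)‖ ≤ ‖S‖ + 1 := by
      have h4 : ‖s.EX 𝕜 k j‖ ≤ 1 := by
        rw [← norm_val, s.EX_coe 𝕜 (mem_range.1 hj)]
        exact s.norm_E_le 𝕜 _ _
      have h5 := S.le_opNorm (s.EX 𝕜 k j)
      have h6 : ‖S‖ * ‖s.EX 𝕜 k j‖ ≤ ‖S‖ * 1 := mul_le_mul_of_nonneg_left h4 (norm_nonneg _)
      calc ‖(⟨S (s.EX 𝕜 k j), ⟨_, rfl⟩⟩ : V)‖ = ‖S (s.EX 𝕜 k j)‖ := rfl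
        _ ≤ ‖S‖ + 1 := by linarith
    calc ε / (2 * (‖S‖ + 1)) * ‖(⟨S (s.EX 𝕜 k j), ⟨_, rfl⟩⟩ : V)‖
        ≤ ε / (2 * (‖S‖ + 1)) * (‖S‖ + 1) := mul_le_mul_of_nonneg_left h3 (by positivity)
      _ = ε / 2 := by field_simp
  unfold beta
  rw [norm_mul]
  have h2 : ‖(1 / 2 ^ k : 𝕜)‖ = 1 / 2 ^ k := by simp
  rw [h2]
  have h3 : ‖∑ j ∈ range (2 ^ k), s.al k j (s.val 𝕜 (S (s.EX 𝕜 k j)))‖ ≤ 2 ^ k * (ε / 2) := by
    refine (norm_sum_le _ _).trans ((Finset.sum_le_sum h1).trans (le_of_eq ?_))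
    rw [Finset.sum_const, card_range, nsmul_eq_mul]
    push_cast
    ring
  have h4 : (1 / 2 ^ k : ℝ) * ‖∑ j ∈ range (2 ^ k), s.al k j (s.val 𝕜 (S (s.EX 𝕜 k j)))‖ ≤ ε / 2 := by
    calc (1 / 2 ^ k : ℝ) * ‖∑ j ∈ range (2 ^ k), s.al k j (s.val 𝕜 (S (s.EX 𝕜 k j)))‖
        ≤ (1 / 2 ^ k) * (2 ^ k * (ε / 2)) := by gcongr
      _ = ε / 2 := by field_simp
  linarith

/-- no finite rank operator is close to the identity on the compact set -/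
theorem far (S : s.XT 𝕜 →L[𝕜] s.XT 𝕜)
    (hS : FiniteDimensional 𝕜 (LinearMap.range (S : s.XT 𝕜 →ₗ[𝕜] s.XT 𝕜))) :
    ∃ x ∈ s.cpt 𝕜, 1 / 6 ≤ ‖S x - x‖ := by
  by_contra hcon
  push Not at hcon
  have h1 : ∀ k, ‖s.beta k (S + (-1 : 𝕜) • (1 : s.XT 𝕜 →L[𝕜] s.XT 𝕜))‖ ≤ 5 * (1 / 6) := by
    intro k
    refine s.norm_beta_le _ (fun x hx => ?_) k
    have h2 : (S + (-1 : 𝕜) • (1 : s.XT 𝕜 →L[𝕜] s.XT 𝕜)) x = S x - x := by
      rw [add_apply, smul_apply, one_apply_eq_self, neg_one_smul]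
      abel
    rw [h2]
    exact (hcon x hx).le
  have h2 : ∀ k, s.beta k (S + (-1 : 𝕜) • (1 : s.XT 𝕜 →L[𝕜] s.XT 𝕜)) = s.beta k S - 1 := by
    intro k
    rw [beta_add]
    have h3 : s.beta k ((-1 : 𝕜) • (1 : s.XT 𝕜 →L[𝕜] s.XT 𝕜)) = -1 := by
      have h4 := s.beta_one (𝕜 := 𝕜) k
      have h5 := s.beta_add (𝕜 := 𝕜) k ((-1 : 𝕜) • (1 : s.XT 𝕜 →L[𝕜] s.XT 𝕜)) 1
      have h6 : (-1 : 𝕜) • (1 : s.XT 𝕜 →L[𝕜] s.XT 𝕜) + 1 = 0 := by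
        rw [neg_one_smul, neg_add_cancel]
      have h7 : s.beta k (0 : s.XT 𝕜 →L[𝕜] s.XT 𝕜) = 0 := by
        have := s.beta_add (𝕜 := 𝕜) k 0 0
        rw [add_zero] at this
        exact left_eq_add.1 this
      rw [h6, h7, h4] at h5
      linear_combination -h5
    rw [h3]
    ring
  have h3 : Tendsto (fun k => ‖s.beta k S - 1‖) atTop (𝓝 ‖(0 : 𝕜) - 1‖) :=
    ((s.tendsto_beta S hS).sub_const 1).norm
  have h4 : ‖(0 : 𝕜) - 1‖ ≤ 5 * (1 / 6) := by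
    refine le_of_tendsto h3 (Eventually.of_forall fun k => ?_)
    rw [← h2]
    exact h1 k
  rw [zero_sub, norm_neg, norm_one] at h4
  norm_num at h4

end Sys

end Pool.Agent.H812R2.AP
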